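import Pool.Agent.Lib.DT.V.V

/-!
# THEOREM V for every prime `l ≠ 2` (level `l M`): the main theorem
-/

set_option autoImplicit false

namespace DT.V

open DI.V (QM)

variable {l M : ℕ} {F : Type} [Field F]

/-- The function `e(r) = ψ(denominator of r)`. -/
def Sy.ee (X : Sy l M F) (r : ℚ) : F := X.ψ ((r.den : ℕ) : ZMod (l * M))

private theorem psi_neg (X : Sy l M F) (x : ZMod (l * M)) : X.ψ (-x) = X.ψ x := by
  rw [neg_eq_neg_one_mul, map_mul, X.neg, one_mul]

private theorem ee_div (X : Sy l M F) (p q : ℤ) (hq : q ≠ 0) (h : IsCoprime p q) :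
    X.ee ((p : ℚ) / q) = X.ψ (q : ZMod (l * M)) := by
  have key : ∀ (p q : ℤ), 0 < q → IsCoprime p q →
      X.ee ((p : ℚ) / q) = X.ψ (q : ZMod (l * M)) := by
    intro p q hq h
    have h1 := Rat.den_div_eq_of_coprime hq (Int.isCoprime_iff_nat_coprime.1 h)
    unfold Sy.ee
    congr 1
    have h2 : ((((p : ℚ) / q).den : ℤ) : ZMod (l * M)) = (q : ZMod (l * M)) := by rw [h1]
    rw [← h2]
    push_cast
    rfl
  rcases lt_or_gt_of_ne hq with h1 | h1
  · have h2 := key (-p) (-q) (by omega) h.neg_neg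
    have e1 : (((-p : ℤ) : ℚ) / ((-q : ℤ) : ℚ)) = (p : ℚ) / q := by
      push_cast
      rw [neg_div_neg_eq]
    rw [e1] at h2
    rw [h2]
    push_cast
    rw [psi_neg]
  · exact key p q h1 h

private theorem psi_zero (X : Sy l M F) {n : ℤ} (h : (l : ℤ) ∣ n) :
    X.ψ (n : ZMod (l * M)) = 0 := by
  apply MulChar.map_nonunit
  intro hu
  have hl := X.prime
  have h1 : IsCoprime n ((l * M : ℕ) : ℤ) := by
    have h3 := (ZMod.coe_int_isUnit_iff_isCoprime n (l * M)).1 hu
    exact h3.symm
  have h2 : IsCoprime (l : ℤ) (l : ℤ) := by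
    refine IsCoprime.of_isCoprime_of_dvd_left (IsCoprime.of_isCoprime_of_dvd_right h1 ?_) h
    push_cast
    exact dvd_mul_right _ _
  rw [isCoprime_self, Int.isUnit_iff] at h2
  have := hl.two_le
  omega

private theorem ee_zero (X : Sy l M F) {p q : ℤ} (hq : (l : ℤ) ∣ q) (hp : ¬ (l : ℤ) ∣ p)
    (hq0 : q ≠ 0) : X.ee ((p : ℚ) / q) = 0 := by
  have hlp : Prime (l : ℤ) := Nat.prime_iff_prime_int.1 X.prime
  have h1 : (((p : ℚ) / q).den : ℤ) * p = ((p : ℚ) / q).num * q := by
    have h2 : ((p : ℚ) / q) = ((p : ℚ) / q).num / ((p : ℚ) / q).den :=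
      (Rat.num_div_den _).symm
    have hq' : (q : ℚ) ≠ 0 := by exact_mod_cast hq0
    have hd : (((p : ℚ) / q).den : ℚ) ≠ 0 := by
      exact_mod_cast ((p : ℚ) / q).den_nz
    have h3 : (p : ℚ) * ((p : ℚ) / q).den = ((p : ℚ) / q).num * q := by
      have h4 := h2
      rw [div_eq_div_iff hq' hd] at h4
      exact h4
    have h5 : ((((p : ℚ) / q).den : ℤ) * p : ℤ) = ((((p : ℚ) / q).num * q : ℤ)) := by
      exact_mod_cast (by rw [mul_comm]; exact h3 :
        ((((p : ℚ) / q).den : ℚ) * p) = ((p : ℚ) / q).num * q)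
    exact h5
  have h2 : (l : ℤ) ∣ (((p : ℚ) / q).den : ℤ) * p := by
    rw [h1]
    exact Dvd.dvd.mul_left hq _
  rcases hlp.dvd_or_dvd h2 with h3 | h3
  · have h4 := psi_zero X h3
    unfold Sy.ee
    push_cast at h4
    exact h4
  · exact absurd h3 hp

private theorem ee_v3 (X : Sy l M F) (r : ℚ) : X.ee (r + 1) = X.ee r := by
  unfold Sy.ee
  have h : (r + 1).den = r.den := by
    have := Rat.add_intCast_den r 1
    simpa using this
  rw [h]

private theorem ee_v2 (X : Sy l M F) (r : ℚ) :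
    ∑ j ∈ Finset.range l, X.ee ((r + j) / l) = X.ee r := by
  have hl := X.prime
  have hlp : Prime (l : ℤ) := Nat.prime_iff_prime_int.1 hl
  have hl0 : (l : ℚ) ≠ 0 := by exact_mod_cast hl.ne_zero
  obtain ⟨u, hu⟩ : ∃ u : ℤ, u = r.num := ⟨_, rfl⟩
  obtain ⟨v, hv⟩ : ∃ v : ℤ, v = r.den := ⟨_, rfl⟩
  have hv0 : v ≠ 0 := by rw [hv]; exact_mod_cast r.den_nz
  have hv0' : (v : ℚ) ≠ 0 := by exact_mod_cast hv0
  have hr : r = u / v := by
    rw [hu, hv]
    push_cast
    exact (Rat.num_div_den r).symm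
  have hc : IsCoprime u v := by
    rw [hu, hv, Int.isCoprime_iff_nat_coprime]
    simpa using r.reduced
  have hj : ∀ j : ℕ, (r + j) / l = ((u + j * v : ℤ) : ℚ) / ((l * v : ℤ) : ℚ) := by
    intro j
    rw [hr]
    push_cast
    field_simp
  have hlv0 : (l * v : ℤ) ≠ 0 := mul_ne_zero (by exact_mod_cast hl.ne_zero) hv0
  have her : X.ee r = X.ψ (v : ZMod (l * M)) := by
    rw [hr]
    exact ee_div X u v hv0 hc
  by_cases hd : (l : ℤ) ∣ v
  · rw [her, psi_zero X hd]
    refine Finset.sum_eq_zero fun j _ => ?_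
    rw [hj]
    refine ee_zero X (dvd_mul_right _ _) (fun h => ?_) hlv0
    have h1 : (l : ℤ) ∣ u := (Int.dvd_add_left (Dvd.dvd.mul_left hd _)).1 h
    have h2 : IsCoprime (l : ℤ) (l : ℤ) :=
      IsCoprime.of_isCoprime_of_dvd_left (IsCoprime.of_isCoprime_of_dvd_right hc hd) h1
    rw [isCoprime_self, Int.isUnit_iff] at h2
    have := hl.two_le
    omega
  · have hcl : IsCoprime (l : ℤ) v := (hlp.coprime_iff_not_dvd).2 hd
    obtain ⟨x, y, hxy⟩ := hcl
    -- `j ≡ - u y` modulo `l`
    obtain ⟨j0, hj0l, hj0⟩ : ∃ j0 : ℕ, j0 < l ∧ (l : ℤ) ∣ u + j0 * v := by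
      have hlpos : (0 : ℤ) < l := by exact_mod_cast hl.pos
      have h1 : 0 ≤ (-(u * y)) % l := Int.emod_nonneg _ hlpos.ne'
      have h2 : (-(u * y)) % l < l := Int.emod_lt_of_pos _ hlpos
      refine ⟨((-(u * y)) % l).toNat, by omega, ?_⟩
      have h3 : ((((-(u * y)) % l).toNat : ℕ) : ℤ) = (-(u * y)) % l := Int.toNat_of_nonneg h1
      rw [h3]
      have h4 : (-(u * y)) % l = -(u * y) - l * ((-(u * y)) / l) := by
        have := Int.emod_add_mul_ediv (-(u * y)) l
        linarith
      rw [h4]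
      refine ⟨u * x - v * ((-(u * y)) / l), ?_⟩
      linear_combination (-u) * hxy
    rw [Finset.sum_eq_single j0]
    · obtain ⟨w, hw⟩ := hj0
      rw [hj, hw, her]
      have e1 : (((l * w : ℤ) : ℚ) / ((l * v : ℤ) : ℚ)) = (w : ℚ) / v := by
        push_cast
        rw [mul_div_mul_left _ _ hl0]
      rw [e1]
      refine ee_div X w v hv0 ?_
      have h1 : IsCoprime (u + j0 * v) v := hc.add_mul_right_left j0
      rw [hw] at h1
      exact h1.of_mul_left_right
    · intro j hjm hne
      rw [hj]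
      refine ee_zero X (dvd_mul_right _ _) (fun h => hne ?_) hlv0
      have h1 : (l : ℤ) ∣ ((j : ℤ) - j0) * v := by
        have := dvd_sub h hj0
        have e : u + (j : ℤ) * v - (u + j0 * v) = ((j : ℤ) - j0) * v := by ring
        rwa [e] at this
      rcases hlp.dvd_or_dvd h1 with h2 | h2
      · obtain ⟨i, hi⟩ := h2
        have h3 := Finset.mem_range.1 hjm
        have h4 : ((j : ℤ) - j0) < l := by omega
        have h5 : -(l : ℤ) < ((j : ℤ) - j0) := by omega
        have hlpos : (0 : ℤ) < l := by exact_mod_cast hl.pos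
        have h6 : i = 0 := by
          rw [hi] at h4 h5
          have h7 : i < 1 := by
            by_contra h8
            push Not at h8
            nlinarith
          have h9 : -1 < i := by
            by_contra h8
            push Not at h8
            nlinarith
          omega
        rw [h6, mul_zero] at hi
        omega
      · exact absurd h2 hd
    · intro h
      exact absurd (Finset.mem_range.2 hj0l) h

private theorem ee_v1 (X : Sy l M F) (a b c d : ℤ) (hdet : a * d - b * c = 1)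
    (hc : ((l * M : ℕ) : ℤ) ∣ c) (r : ℚ) (hr : QM M r) :
    X.ee ((a * r + b) / (c * r + d)) = X.ψ (d : ZMod (l * M)) * X.ee r := by
  have hMc : (M : ℤ) ∣ c := by
    refine dvd_trans ?_ hc
    push_cast
    exact dvd_mul_left _ _
  obtain ⟨-, hne, -⟩ := QM.mobZ X.two hdet hMc hr
  obtain ⟨u, hu⟩ : ∃ u : ℤ, u = r.num := ⟨_, rfl⟩
  obtain ⟨v, hv⟩ : ∃ v : ℤ, v = r.den := ⟨_, rfl⟩
  have hv0 : v ≠ 0 := by rw [hv]; exact_mod_cast r.den_nz
  have hv0' : (v : ℚ) ≠ 0 := by exact_mod_cast hv0
  have hr' : r = u / v := by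
    rw [hu, hv]
    push_cast
    exact (Rat.num_div_den r).symm
  have hcop : IsCoprime u v := by
    rw [hu, hv, Int.isCoprime_iff_nat_coprime]
    simpa using r.reduced
  have her : X.ee r = X.ψ (v : ZMod (l * M)) := by
    rw [hr']
    exact ee_div X u v hv0 hcop
  have hq0 : (c * u + d * v : ℤ) ≠ 0 := by
    intro h0
    apply hne
    have h1 : (c : ℚ) * u + d * v = 0 := by exact_mod_cast h0
    rw [hr']
    field_simp
    linarith
  have e1 : (a * r + b) / (c * r + d) = ((a * u + b * v : ℤ) : ℚ) / ((c * u + d * v : ℤ) : ℚ) := by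
    have h2 : a * r + b = ((a * u + b * v : ℤ) : ℚ) / v := by
      rw [hr']
      push_cast
      field_simp
    have h3 : c * r + d = ((c * u + d * v : ℤ) : ℚ) / v := by
      rw [hr']
      push_cast
      field_simp
    rw [h2, h3, div_div_div_cancel_right₀ hv0']
  rw [e1, her, ee_div X _ _ hq0]
  · have h1 : ((c * u + d * v : ℤ) : ZMod (l * M)) = (d : ZMod (l * M)) * v := by
      push_cast
      have h2 : (c : ZMod (l * M)) = 0 := (ZMod.intCast_zmod_eq_zero_iff_dvd c (l * M)).2 hc
      rw [h2, zero_mul, zero_add]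
    rw [h1, map_mul]
  · obtain ⟨x, y, hxy⟩ := hcop
    exact ⟨x * d - y * c, y * a - x * b, by linear_combination (x * u + y * v) * hdet + hxy⟩

private theorem ee_van (X : Sy l M F) (y : ℚ) (hy : AL l y) (hn : ∀ n : ℤ, y ≠ n) :
    X.ee y = 0 := by
  obtain ⟨c, n, rfl⟩ := hy
  have h1 : ((((c : ℚ) / ((l : ℤ) ^ n : ℤ)).den : ℕ) : ℤ) ∣ (l : ℤ) ^ n := by
    have := Rat.den_dvd c ((l : ℤ) ^ n)
    rwa [Rat.divInt_eq_div] at this
  have e1 : ((c : ℚ) / ((l : ℤ) ^ n : ℤ)) = (c : ℚ) / (l : ℚ) ^ n := by push_cast; rfl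
  rw [e1] at h1
  have h2 : ((c : ℚ) / (l : ℚ) ^ n).den ∣ l ^ n := by exact_mod_cast h1
  obtain ⟨i, -, hi⟩ := (Nat.dvd_prime_pow X.prime).1 h2
  have hi0 : i ≠ 0 := by
    rintro rfl
    rw [pow_zero] at hi
    apply hn ((c : ℚ) / (l : ℚ) ^ n).num
    exact (Rat.coe_int_num_of_den_eq_one hi).symm
  have h3 : (l : ℤ) ∣ ((((c : ℚ) / (l : ℚ) ^ n).den : ℕ) : ℤ) := by
    rw [hi]
    push_cast
    exact dvd_pow_self _ hi0
  have h4 := psi_zero X h3
  unfold Sy.ee
  push_cast at h4
  exact h4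

private theorem ee_int_zero (X : Sy l M F) : X.ee 0 = 1 := by
  unfold Sy.ee
  simp

/-- The case `h 0 = 0`. -/
private theorem tV0 (X : Sy l M F) (hl2 : l ≠ 2) (h0 : X.h 0 = 0) (b d : ℤ) (h : IsCoprime b d)
    (hd : (M : ℤ) ∣ d - 1) : X.h (b / d) = 0 := by
  have hsh : ∀ n : ℕ, X.h (n : ℚ) = 0 := by
    intro n
    induction n with
    | zero => simpa using h0
    | succ n ih =>
      push_cast
      have h1 : QM M ((n : ℤ) : ℚ) := QM.int n
      rw [X.v3 (n : ℚ) (by simpa using h1), ih]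
  have hsi : ∀ n : ℤ, X.h (n : ℚ) = 0 := by
    intro n
    obtain ⟨m, rfl | rfl⟩ := n.eq_nat_or_neg
    · simpa using hsh m
    · induction m with
      | zero => simpa using h0
      | succ m ih =>
        have h1 := X.v3 (((-((m : ℤ) + 1) : ℤ)) : ℚ) (QM.int _)
        have e : (((-((m : ℤ) + 1) : ℤ)) : ℚ) + 1 = ((-(m : ℤ) : ℤ) : ℚ) := by push_cast; ring
        rw [e, ih] at h1
        push_cast at h1 ⊢
        exact h1.symm
  refine tVd X (fun y hy => ?_) _ (tSt l M X.prime hl2 X.cop X.two b d h hd)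
  by_cases hn : ∀ n : ℤ, y ≠ n
  · exact X.van y hy hn
  · push Not at hn
    obtain ⟨n, rfl⟩ := hn
    exact hsi n

/-- **THEOREM V.** `h (b/d) = h 0` for all `(a b; c d)` in `Γ₁(l M)`. -/
theorem tV (X : Sy l M F) (hl2 : l ≠ 2) (b d : ℤ) (h : IsCoprime b d)
    (hd : ((l * M : ℕ) : ℤ) ∣ d - 1) : X.h (b / d) = X.h 0 := by
  have hMd : (M : ℤ) ∣ d - 1 := by
    refine dvd_trans ?_ hd
    push_cast
    exact dvd_mul_left _ _
  by_cases h0 : X.h 0 = 0
  · rw [h0]
    exact tV0 X hl2 h0 b d h hMd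
  · have hl := X.prime
    have hα : X.α = 1 := by
      have h1 := X.v2 0 QM.zero
      rw [Finset.sum_eq_single 0] at h1
      · have e : ((0 : ℚ) + ((0 : ℕ) : ℚ)) / l = 0 := by simp
        rw [e] at h1
        have h2 : (1 - X.α) * X.h 0 = 0 := by linear_combination h1
        rcases mul_eq_zero.1 h2 with h3 | h3
        · linear_combination -h3
        · exact absurd h3 h0
      · intro j hj hj0
        apply X.van
        · exact AL.divl (by simpa using AL.nat (l := l) j)
        · intro n hn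
          have hl0 : (l : ℚ) ≠ 0 := by exact_mod_cast hl.ne_zero
          rw [zero_add, div_eq_iff hl0] at hn
          have h2 : (j : ℤ) = n * l := by exact_mod_cast hn
          have h3 : (l : ℤ) ∣ j := ⟨n, by rw [h2, mul_comm]⟩
          have h4 : l ∣ j := by exact_mod_cast h3
          have h5 := Nat.le_of_dvd (Nat.pos_of_ne_zero hj0) h4
          have h6 := Finset.mem_range.1 hj
          omega
      · intro h
        exact absurd (Finset.mem_range.2 hl.pos) h
    let X' : Sy l M F :=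
      { h := fun r => X.h r - X.h 0 * X.ee r
        ψ := X.ψ
        α := X.α
        prime := X.prime
        char := X.char
        cop := X.cop
        two := X.two
        α0 := X.α0
        neg := X.neg
        v1 := by
          intro a b c d hdet hc r hr
          have h1 := X.v1 a b c d hdet hc r hr
          have h2 := ee_v1 X a b c d hdet hc r hr
          have h3 := ee_v1 X a b c d hdet hc 0 QM.zero
          rw [mul_zero, mul_zero, zero_add, zero_add] at h3
          linear_combination h1 - X.h 0 * h2 + X.h 0 * h3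
        v2 := by
          intro r hr
          rw [Finset.sum_sub_distrib, X.v2 r hr, ← Finset.mul_sum, ee_v2 X r, hα]
          ring
        v3 := by
          intro r hr
          rw [X.v3 r hr, ee_v3]
        van := by
          intro y hy hn
          rw [X.van y hy hn, ee_van X y hy hn]
          ring }
    have hX0 : X'.h 0 = 0 := by
      change X.h 0 - X.h 0 * X.ee 0 = 0
      rw [ee_int_zero]
      ring
    have h1 := tV0 X' hl2 hX0 b d h hMd
    change X.h (b / d) - X.h 0 * X.ee (b / d) = 0 at h1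
    have hd0 : d ≠ 0 := by
      rintro rfl
      have h2 : ((l * M : ℕ) : ℤ) ∣ 1 := by
        have := dvd_neg.2 hd
        simpa using this
      have h3 : (l : ℤ) ∣ 1 := dvd_trans (by push_cast; exact dvd_mul_right _ _) h2
      have h4 := Int.le_of_dvd one_pos h3
      have := hl.two_le
      omega
    have h2 : X.ee ((b : ℚ) / d) = 1 := by
      rw [ee_div X b d hd0 h]
      have h3 : (d : ZMod (l * M)) = 1 := by
        have h4 := (ZMod.intCast_zmod_eq_zero_iff_dvd (d - 1) (l * M)).2 hd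
        push_cast at h4
        exact sub_eq_zero.1 h4
      rw [h3, map_one]
    rw [h2] at h1
    linear_combination h1

end DT.V
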