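import Mathlib
import Pool.Agent.Lib.DI.V.Base

/-!
# Part V for every prime `l` (level `l M`): definitions and basic facts (helper67)

`AL l` is the ring `ℤ[1/l]`, `QM M` (from `DI.V`) the ring of the rational numbers with denominator
prime to `M`, `E0 l M` the orbit of `0` under the group generated by `r ↦ r + y` and
`r ↦ r / (M z r + 1)`, `y, z ∈ ℤ[1/l]`.
-/

set_option autoImplicit false

namespace DT.V

open DI.V (QM)

/-- `y ∈ ℤ[1/l]`. -/
def AL (l : ℕ) (y : ℚ) : Prop := ∃ (c : ℤ) (n : ℕ), y = c / (l : ℚ) ^ n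

/-- The orbit of `0`. -/
inductive E0 (l M : ℕ) : ℚ → Prop
  | zero : E0 l M 0
  | up {r y : ℚ} : AL l y → E0 l M r → E0 l M (r + y)
  | lo {r z : ℚ} : AL l z → E0 l M r → E0 l M (r / (M * z * r + 1))

/-- The data of part V: a function `h` on the rational numbers with denominator prime to `M` which
transforms under `Γ₀(l M)` with the character `ψ`, is invariant under `r ↦ r + 1`, is an eigenfunction
of `U_l` with eigenvalue `α ≠ 0`, and vanishes at the elements of `ℤ[1/l]` which are not integers. -/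
structure Sy (l M : ℕ) (F : Type) [Field F] where
  h : ℚ → F
  ψ : MulChar (ZMod (l * M)) F
  α : F
  prime : l.Prime
  char : (l : F) = 0
  cop : l.Coprime M
  two : 2 ≤ M
  α0 : α ≠ 0
  neg : ψ (-1) = 1
  v1 : ∀ a b c d : ℤ, a * d - b * c = 1 → ((l * M : ℕ) : ℤ) ∣ c → ∀ r : ℚ, QM M r →
    h ((a * r + b) / (c * r + d)) - ψ (d : ZMod (l * M)) * h r =
      h (b / d) - ψ (d : ZMod (l * M)) * h 0
  v2 : ∀ r : ℚ, QM M r → ∑ j ∈ Finset.range l, h ((r + j) / l) = α * h r
  v3 : ∀ r : ℚ, QM M r → h (r + 1) = h r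
  van : ∀ y : ℚ, AL l y → (∀ n : ℤ, y ≠ n) → h y = 0

/-! ### The ring `ℤ[1/l]` -/

namespace AL

variable {l : ℕ}

theorem int (c : ℤ) : AL l c := ⟨c, 0, by simp⟩

theorem zero : AL l 0 := ⟨0, 0, by simp⟩

theorem one : AL l 1 := ⟨1, 0, by simp⟩

theorem nat (c : ℕ) : AL l c := ⟨c, 0, by simp⟩

theorem add (hl : l ≠ 0) {x y : ℚ} (hx : AL l x) (hy : AL l y) : AL l (x + y) := by
  obtain ⟨c, n, rfl⟩ := hx
  obtain ⟨c', n', rfl⟩ := hy
  have h0 : (l : ℚ) ≠ 0 := by exact_mod_cast hl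
  refine ⟨c * l ^ n' + c' * l ^ n, n + n', ?_⟩
  push_cast
  rw [pow_add]
  field_simp

theorem neg {x : ℚ} (hx : AL l x) : AL l (-x) := by
  obtain ⟨c, n, rfl⟩ := hx
  exact ⟨-c, n, by push_cast; ring⟩

theorem sub (hl : l ≠ 0) {x y : ℚ} (hx : AL l x) (hy : AL l y) : AL l (x - y) := by
  rw [sub_eq_add_neg]
  exact hx.add hl hy.neg

theorem mul {x y : ℚ} (hx : AL l x) (hy : AL l y) : AL l (x * y) := by
  obtain ⟨c, n, rfl⟩ := hx
  obtain ⟨c', n', rfl⟩ := hy
  refine ⟨c * c', n + n', ?_⟩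
  push_cast
  rw [pow_add, div_mul_div_comm]

theorem divl {x : ℚ} (hx : AL l x) : AL l (x / l) := by
  obtain ⟨c, n, rfl⟩ := hx
  refine ⟨c, n + 1, ?_⟩
  rw [pow_succ, div_div]

theorem mull {x : ℚ} (hx : AL l x) : AL l (l * x) := (AL.nat l).mul hx

theorem div_pow {x : ℚ} (hx : AL l x) (n : ℕ) : AL l (x / (l : ℚ) ^ n) := by
  induction n with
  | zero => simpa using hx
  | succ n ih =>
    have h : x / (l : ℚ) ^ (n + 1) = x / (l : ℚ) ^ n / l := by
      rw [pow_succ, div_div]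
    rw [h]
    exact ih.divl

theorem qm {M : ℕ} (hl : l.Coprime M) {x : ℚ} (hx : AL l x) : QM M x := by
  obtain ⟨c, n, rfl⟩ := hx
  refine ⟨c, (l : ℤ) ^ n, IsCoprime.pow_left ?_, by push_cast; rfl⟩
  exact_mod_cast Nat.isCoprime_iff_coprime.2 hl

end AL

/-- The orbit of `0` is contained in `QM M`. -/
theorem E0.qm {l M : ℕ} (hM : 2 ≤ M) (ho : l.Coprime M) {r : ℚ} (h : E0 l M r) : QM M r := by
  induction h with
  | zero => exact QM.zero
  | up hy _ ih => exact ih.add hM (AL.qm ho hy)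
  | @lo r z hz _ ih =>
    have h1 := ((AL.qm ho hz).mul ih).one_add hM
    have e : r / (M * z * r + 1) = r * (1 / (M * (z * r) + 1)) := by
      rw [mul_assoc, mul_one_div]
    rw [e]
    exact ih.mul h1.2

/-- The denominators in `E0.lo`. -/
theorem E0.den {l M : ℕ} (hM : 2 ≤ M) (ho : l.Coprime M) {r z : ℚ} (h : E0 l M r) (hz : AL l z) :
    M * z * r + 1 ≠ 0 := by
  have h1 := ((AL.qm ho hz).mul (h.qm hM ho)).one_add hM
  rw [mul_assoc]
  exact h1.1

/-- The orbit of `0` is stable under `r ↦ l r` and `r ↦ r / l`. -/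
theorem tSc {l : ℕ} (hl : l ≠ 0) (M : ℕ) (r : ℚ) (hr : E0 l M r) :
    E0 l M (l * r) ∧ E0 l M (r / l) := by
  have h0 : (l : ℚ) ≠ 0 := by exact_mod_cast hl
  induction hr with
  | zero =>
    refine ⟨?_, ?_⟩
    · rw [mul_zero]
      exact E0.zero
    · rw [zero_div]
      exact E0.zero
  | up hy _ ih =>
    refine ⟨?_, ?_⟩
    · rw [mul_add]
      exact E0.up hy.mull ih.1
    · rw [add_div]
      exact E0.up hy.divl ih.2
  | @lo r z hz _ ih =>
    refine ⟨?_, ?_⟩
    · have h := E0.lo hz.divl ih.1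
      have e : (M : ℚ) * (z / l) * (l * r) + 1 = M * z * r + 1 := by field_simp
      rw [e] at h
      rw [← mul_div_assoc]
      exact h
    · have h := E0.lo hz.mull ih.2
      have e : (M : ℚ) * (l * z) * (r / l) + 1 = M * z * r + 1 := by field_simp
      rw [e] at h
      rw [div_right_comm]
      exact h

end DT.V
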