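import Mathlib

/-!
# Part V: the powers of `l` fill the classes `≡ 1` modulo `p^s`
-/

set_option autoImplicit false

namespace DT.V

/-- Powers of `1 + p^e u` modulo `p^(e+1)`. -/
private theorem Pw_pow (p e u : ℤ) (n : ℕ) (hn : 1 ≤ n) (he : e = p ^ n) (t : ℕ) :
    p ^ (n + 1) ∣ (1 + e * u) ^ t - (1 + t * (e * u)) := by
  have h0 : p ^ (n + 1) ∣ e * e := by
    rw [he, ← pow_add]
    exact pow_dvd_pow p (by omega)
  induction t with
  | zero => simp
  | succ t ih =>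
    have h1 : (1 + e * u) ^ (t + 1) - (1 + ((t + 1 : ℕ) : ℤ) * (e * u)) =
        (1 + e * u) * ((1 + e * u) ^ t - (1 + t * (e * u))) + e * e * (t * u * u) := by
      push_cast
      ring
    rw [h1]
    exact dvd_add (ih.mul_left _) (h0.mul_right _)

/-- Solution of a linear congruence modulo `p` by a natural number. -/
private theorem Pw_lin (p : ℕ) (hp : p.Prime) (w a : ℤ) (ha : ¬ (p : ℤ) ∣ a) :
    ∃ t : ℕ, (p : ℤ) ∣ w + t * a := by
  have h1 : IsCoprime (p : ℤ) a :=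
    (Prime.coprime_iff_not_dvd (Nat.prime_iff_prime_int.1 hp)).2 ha
  obtain ⟨c, d, h2⟩ := h1
  have hp0 : (p : ℤ) ≠ 0 := by exact_mod_cast hp.ne_zero
  have h3 : 0 ≤ (-(w * d)) % (p : ℤ) := Int.emod_nonneg _ hp0
  refine ⟨((-(w * d)) % (p : ℤ)).toNat, ?_⟩
  rw [Int.toNat_of_nonneg h3]
  have h4 := Int.emod_add_mul_ediv (-(w * d)) (p : ℤ)
  have h5 : w + (-(w * d)) % (p : ℤ) * a =
      (p : ℤ) * (w * c - a * ((-(w * d)) / (p : ℤ))) := by
    have h6 : (-(w * d)) % (p : ℤ) = -(w * d) - (p : ℤ) * ((-(w * d)) / (p : ℤ)) := by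
      linarith
    rw [h6]
    linear_combination (-w) * h2
  rw [h5]
  exact dvd_mul_right _ _

/-- The powers of `l` fill the classes `≡ 1` modulo `p^s`. -/
theorem tPw (l : ℤ) (p : ℕ) (hp : p.Prime) (hp2 : p ≠ 2) (s : ℕ) (u x : ℤ) (hs : 1 ≤ s)
    (hu : ¬ (p : ℤ) ∣ u) (h2 : l ^ (p - 1) = 1 + (p : ℤ) ^ s * u) (hx : (p : ℤ) ^ s ∣ x - 1)
    (e : ℕ) : ∃ k : ℕ, (p : ℤ) ^ e ∣ l ^ k - x := by
  have hpi : Prime (p : ℤ) := Nat.prime_iff_prime_int.1 hp
  have hodd : Odd p := hp.odd_of_ne_two hp2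
  have hps : (p : ℤ) ∣ (p : ℤ) ^ s := dvd_pow_self _ (by omega)
  have hx1 : ¬ (p : ℤ) ∣ x := by
    intro h
    have h3 : (p : ℤ) ∣ 1 := by
      have := dvd_sub h (hps.trans hx)
      simpa using this
    exact hpi.not_dvd_one h3
  have hv1 : (p : ℤ) ∣ l ^ (p - 1) - 1 := by
    rw [h2]
    have : (1 + (p : ℤ) ^ s * u) - 1 = (p : ℤ) ^ s * u := by ring
    rw [this]
    exact hps.mul_right _
  have hv2 : ¬ (p : ℤ) ∣ l ^ (p - 1) := by
    intro h
    have h3 : (p : ℤ) ∣ 1 := by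
      have := dvd_sub h hv1
      simpa using this
    exact hpi.not_dvd_one h3
  have hem : emultiplicity (p : ℤ) (l ^ (p - 1) - 1) = s := by
    rw [emultiplicity_eq_coe, h2]
    have : (1 + (p : ℤ) ^ s * u) - 1 = (p : ℤ) ^ s * u := by ring
    rw [this]
    refine ⟨dvd_mul_right _ _, fun h => hu ?_⟩
    rw [pow_succ] at h
    exact (mul_dvd_mul_iff_left (pow_ne_zero _ hpi.ne_zero)).1 h
  rcases le_total e s with h | h
  · exact ⟨0, by
      have h3 : (p : ℤ) ^ e ∣ x - 1 := (pow_dvd_pow _ h).trans hx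
      have h4 : l ^ 0 - x = -(x - 1) := by ring
      rw [h4]
      exact h3.neg_right⟩
  · induction e, h using Nat.le_induction with
    | base =>
      exact ⟨0, by
        have h4 : l ^ 0 - x = -(x - 1) := by ring
        rw [h4]
        exact hx.neg_right⟩
    | succ e he ih =>
      obtain ⟨k, w, hk⟩ := ih
      have h5 := Int.emultiplicity_pow_sub_pow hp hodd (y := 1) hv1 hv2 (p ^ (e - s))
      rw [one_pow, hem, hp.emultiplicity_pow_self, ← Nat.cast_add,
        show s + (e - s) = e from by omega, emultiplicity_eq_coe] at h5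
      obtain ⟨⟨u', hu'⟩, h6⟩ := h5
      have h7 : ¬ (p : ℤ) ∣ u' := by
        rintro ⟨c, rfl⟩
        apply h6
        rw [hu']
        exact ⟨c, by ring⟩
      obtain ⟨t, ht⟩ := Pw_lin p hp w (u' * x) (fun h => by
        rcases hpi.dvd_or_dvd h with h | h
        · exact h7 h
        · exact hx1 h)
      have h8 := Pw_pow p ((p : ℤ) ^ e) u' e (by omega) rfl t
      have h9 : (l ^ (p - 1)) ^ p ^ (e - s) = 1 + (p : ℤ) ^ e * u' := by linarith
      refine ⟨k + (p - 1) * p ^ (e - s) * t, ?_⟩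
      have h14 : l ^ (k + (p - 1) * p ^ (e - s) * t) =
          l ^ k * (1 + (p : ℤ) ^ e * u') ^ t := by
        rw [pow_add, pow_mul, pow_mul, h9]
      have h10 : l ^ k = x + (p : ℤ) ^ e * w := by linarith
      obtain ⟨c, hc⟩ := h8
      obtain ⟨d, hd⟩ := ht
      have h11 : (1 + (p : ℤ) ^ e * u') ^ t =
          1 + t * ((p : ℤ) ^ e * u') + (p : ℤ) ^ (e + 1) * c := by linarith
      have h12 : (p : ℤ) ^ e = (p : ℤ) * (p : ℤ) ^ (e - 1) := by
        rw [← pow_succ']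
        congr 1
        omega
      rw [h14, h10, h11]
      have h13 : (x + (p : ℤ) ^ e * w) * (1 + t * ((p : ℤ) ^ e * u') + (p : ℤ) ^ (e + 1) * c) - x =
          (p : ℤ) ^ e * (w + t * (u' * x)) + (p : ℤ) ^ e * ((p : ℤ) ^ e * (w * t * u')) +
            (p : ℤ) ^ (e + 1) * (c * (x + (p : ℤ) ^ e * w)) := by ring
      rw [h13]
      refine dvd_add (dvd_add ?_ ?_) (dvd_mul_right _ _)
      · rw [hd, pow_succ]
        exact ⟨d, by ring⟩
      · rw [pow_succ]
        refine mul_dvd_mul_left _ ?_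
        rw [h12, mul_assoc]
        exact dvd_mul_right _ _



end DT.V
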