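import Pool.Agent.Lib.DT.V.Base

/-!
# Part V: `h (y / (M y + 1)) = 0` for `y ∈ ℤ[1/l]`
-/

set_option autoImplicit false

namespace DT.V

open DI.V (QM)

variable {l M : ℕ} {F : Type} [Field F]

/-- `h (R y)`, `R = (1 0; M 1)`. -/
private def kk (X : Sy l M F) (y : ℚ) : F := X.h (y / (M * y + 1))

private theorem Rqm (X : Sy l M F) {y : ℚ} (hy : QM M y) :
    (M : ℚ) * y + 1 ≠ 0 ∧ QM M (y / (M * y + 1)) := by
  have h1 := hy.one_add X.two
  refine ⟨h1.1, ?_⟩
  have e : y / (M * y + 1) = y * (1 / (M * y + 1)) := by rw [mul_one_div]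
  rw [e]
  exact hy.mul h1.2

private theorem Radd {M : ℕ} {y j : ℚ} (h : (M : ℚ) * y + 1 ≠ 0) :
    y / (M * y + 1) + j = ((1 + j * M) * y + j) / (M * y + 1) := by
  rw [eq_div_iff h, add_mul, div_mul_cancel₀ _ h]
  ring

/-- The terms of `U_l` which are constant. -/
private theorem Rconst (X : Sy l M F) (hz : ∀ y, AL l y → X.h y = 0) (j : ℕ)
    (hj : ¬ (l : ℤ) ∣ 1 + j * M) :
    ∃ C : F, ∀ y : ℚ, AL l y → X.h ((y / (M * y + 1) + j) / l) = C := by
  have hl0 : (l : ℚ) ≠ 0 := by exact_mod_cast X.prime.ne_zero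
  have hlp : Prime (l : ℤ) := Nat.prime_iff_prime_int.1 X.prime
  have hc : IsCoprime (l : ℤ) (1 + j * M) := (hlp.coprime_iff_not_dvd).2 hj
  obtain ⟨u, v, huv⟩ := hc
  -- `j' = j v`
  obtain ⟨j', hj'⟩ : ∃ j' : ℤ, j' = j * v := ⟨_, rfl⟩
  obtain ⟨w, hw⟩ : ∃ w : ℤ, w = j * u := ⟨_, rfl⟩
  have hrel : (j : ℤ) - j' * (1 + j * M) = l * w := by
    rw [hj', hw]
    linear_combination (-(j : ℤ)) * huv
  have hdet : (1 + j * M : ℤ) * (1 - j' * M) - w * ((l * M : ℕ) : ℤ) = 1 := by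
    push_cast
    linear_combination (M : ℤ) * hrel
  refine ⟨X.h (w / ((1 - j' * M : ℤ) : ℚ)), fun y hy => ?_⟩
  have hr : AL l ((y + j') / l) := (hy.add X.prime.ne_zero (AL.int j')).divl
  have h1 := X.v1 (1 + j * M) w ((l * M : ℕ) : ℤ) (1 - j' * M) hdet (dvd_refl _) _
    (AL.qm X.cop hr)
  rw [hz _ hr, hz 0 AL.zero, mul_zero, sub_zero, sub_zero] at h1
  rw [← h1]
  congr 1
  have h2 := (Rqm X (AL.qm X.cop hy)).1
  have h3 : ((j : ℚ)) - j' * (1 + j * M) = l * w := by exact_mod_cast hrel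
  push_cast
  have e1 : (1 + (j : ℚ) * M) * ((y + j') / l) + w = ((1 + j * M) * y + j) / l := by
    rw [eq_div_iff hl0, add_mul, mul_assoc, div_mul_cancel₀ _ hl0]
    linear_combination (-1 : ℚ) * h3
  have e2 : ((l : ℚ) * M) * ((y + j') / l) + (1 - j' * M) = M * y + 1 := by
    field_simp
    ring
  rw [e1, e2, Radd h2, div_div, div_div, mul_comm (l : ℚ) ((M : ℚ) * y + 1)]

/-- The remaining term. -/
private theorem Rterm (X : Sy l M F) (hz : ∀ y, AL l y → X.h y = 0) (j : ℕ)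
    (hj : (l : ℤ) ∣ 1 + j * M) :
    ∃ β C : F, ∀ y : ℚ, AL l y → X.h ((y / (M * y + 1) + j) / l) = β * kk X (l * y + j) + C := by
  have hl0 : (l : ℚ) ≠ 0 := by exact_mod_cast X.prime.ne_zero
  obtain ⟨t, ht⟩ := hj
  have hdet : (t + M * j * (t - 1) : ℤ) * (1 - l * (t - 1)) -
      (-(j * (t - 1))) * (((l * M : ℕ) : ℤ) * (t - 1)) = 1 := by
    push_cast
    linear_combination (t - 1) * ht
  refine ⟨X.ψ ((1 - l * (t - 1) : ℤ) : ZMod (l * M)),
    X.h (((-(j * (t - 1)) : ℤ) : ℚ) / ((1 - l * (t - 1) : ℤ) : ℚ)), fun y hy => ?_⟩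
  have hy' : AL l (l * y + j) := hy.mull.add X.prime.ne_zero (AL.nat j)
  have h0 := Rqm X (AL.qm X.cop hy')
  have h1 := X.v1 (t + M * j * (t - 1)) (-(j * (t - 1))) (((l * M : ℕ) : ℤ) * (t - 1))
    (1 - l * (t - 1)) hdet (dvd_mul_right _ _) _ h0.2
  rw [hz 0 AL.zero, mul_zero, sub_zero] at h1
  have h2 : X.h ((y / (M * y + 1) + j) / l) = X.h
      ((((t + M * j * (t - 1) : ℤ) : ℚ) * ((l * y + j) / (M * (l * y + j) + 1)) +
        ((-(j * (t - 1)) : ℤ) : ℚ)) /
      (((((l * M : ℕ) : ℤ) * (t - 1) : ℤ) : ℚ) * ((l * y + j) / (M * (l * y + j) + 1)) +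
        ((1 - l * (t - 1) : ℤ) : ℚ))) := by
    congr 1
    have h3 := (Rqm X (AL.qm X.cop hy)).1
    have ht' : (1 : ℚ) + j * M = l * t := by exact_mod_cast ht
    have h4 := h0.1
    have hD : (M : ℚ) * (l * y + j) + 1 = l * (M * y + t) := by
      linear_combination ht'
    have h5 : (M : ℚ) * y + t ≠ 0 := by
      intro h
      rw [hD, h, mul_zero] at h4
      exact h4 rfl
    push_cast
    rw [hD]
    have e1 : ((t : ℚ) + M * j * (t - 1)) * ((l * y + j) / (l * (M * y + t))) + -(j * (t - 1)) =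
        ((1 + j * M) * y + j) / (l * (M * y + t)) := by
      rw [eq_div_iff (mul_ne_zero hl0 h5), add_mul, mul_assoc,
        div_mul_cancel₀ _ (mul_ne_zero hl0 h5)]
      linear_combination ((j : ℚ) * (t - 1) - y) * ht'
    have e2 : ((l : ℚ) * M * (t - 1)) * ((l * y + j) / (l * (M * y + t))) + (1 - l * (t - 1)) =
        (M * y + 1) * l / (l * (M * y + t)) := by
      rw [eq_div_iff (mul_ne_zero hl0 h5), add_mul, mul_assoc,
        div_mul_cancel₀ _ (mul_ne_zero hl0 h5)]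
      linear_combination ((l : ℚ) * (t - 1)) * ht'
    rw [e1, e2, div_div_div_cancel_right₀ (mul_ne_zero hl0 h5), Radd h3, div_div]
  rw [h2, kk]
  linear_combination h1

/-- The functional equation of `k y = h (R y)`. -/
private theorem Rfun (X : Sy l M F) (hz : ∀ y, AL l y → X.h y = 0) :
    ∃ (β C : F) (j : ℕ), ∀ y : ℚ, AL l y → X.α * kk X y = β * kk X (l * y + j) + C := by
  have hlp : Prime (l : ℤ) := Nat.prime_iff_prime_int.1 X.prime
  -- `j0`
  have hcM : IsCoprime (l : ℤ) (M : ℤ) := Nat.isCoprime_iff_coprime.2 X.cop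
  obtain ⟨u, v, huv⟩ := hcM
  have hl0 : (l : ℤ) ≠ 0 := by exact_mod_cast X.prime.ne_zero
  obtain ⟨j0, hj0l, hj0⟩ : ∃ j0 : ℕ, j0 < l ∧ (l : ℤ) ∣ 1 + j0 * M := by
    refine ⟨((-v) % l).toNat, ?_, ?_⟩
    · have h1 := Int.emod_lt_of_pos (-v) (show (0 : ℤ) < l by exact_mod_cast X.prime.pos)
      have h2 := Int.emod_nonneg (-v) hl0
      omega
    · rw [Int.toNat_of_nonneg (Int.emod_nonneg _ hl0)]
      have h3 := Int.emod_add_mul_ediv (-v) (l : ℤ)
      have h4 : (-v) % (l : ℤ) = -v - l * ((-v) / l) := by linarith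
      rw [h4]
      exact ⟨u - M * ((-v) / l), by linear_combination (-1 : ℤ) * huv⟩
  have huniq : ∀ j ∈ (Finset.range l).erase j0, ¬ (l : ℤ) ∣ 1 + j * M := by
    intro j hj hd
    rw [Finset.mem_erase, Finset.mem_range] at hj
    have h1 : (l : ℤ) ∣ (j - j0) * M := by
      have h2 := dvd_sub hd hj0
      have e : (1 : ℤ) + j * M - (1 + j0 * M) = (j - j0) * M := by ring
      rwa [e] at h2
    have h3 : (l : ℤ) ∣ (j : ℤ) - j0 := by
      have hc : IsCoprime (l : ℤ) (M : ℤ) := Nat.isCoprime_iff_coprime.2 X.cop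
      exact hc.dvd_of_dvd_mul_right h1
    have h4 : (j : ℤ) - j0 = 0 := by
      refine Int.eq_zero_of_abs_lt_dvd h3 ?_
      rw [abs_lt]
      constructor <;> omega
    exact hj.1 (by omega)
  obtain ⟨β, C0, hβ⟩ := Rterm X hz j0 hj0
  choose! C hC using fun (j : ℕ) (hj : j ∈ (Finset.range l).erase j0) =>
    Rconst X hz j (huniq j hj)
  refine ⟨β, C0 + ∑ j ∈ (Finset.range l).erase j0, C j, j0, fun y hy => ?_⟩
  have h1 := X.v2 _ (Rqm X (AL.qm X.cop hy)).2
  rw [← Finset.add_sum_erase _ _ (Finset.mem_range.2 hj0l)] at h1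
  rw [kk, ← h1, hβ y hy, Finset.sum_congr rfl fun j hj => hC j hj y hy]
  ring

/-- **`h ∘ R` vanishes on `ℤ[1/l]`.** -/
theorem tR (X : Sy l M F) (hz : ∀ y, AL l y → X.h y = 0) (y : ℚ) (hy : AL l y) :
    X.h (y / (M * y + 1)) = 0 := by
  have hlne := X.prime.ne_zero
  obtain ⟨β, C, j, hf⟩ := Rfun X hz
  -- the difference equation
  have hd : ∀ s x : ℚ, AL l s → AL l x →
      X.α * (kk X (x + s) - kk X x) = β * (kk X ((l * x + j) + l * s) - kk X (l * x + j)) := by
    intro s x hs hx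
    have h1 := hf x hx
    have h2 := hf (x + s) (hx.add hlne hs)
    have e : (l : ℚ) * (x + s) + j = (l * x + j) + l * s := by ring
    rw [e] at h2
    linear_combination h2 - h1
  -- shift by `l`
  obtain ⟨c1, hc1⟩ : ∃ c1 : F, ∀ x : ℚ, AL l x → kk X (x + l) - kk X x = c1 := by
    refine ⟨X.h ((l : ℚ) / (1 + l * M)), fun x hx => ?_⟩
    have h0 := Rqm X (AL.qm X.cop hx)
    have h1 := X.v1 (1 - l * M) l (((l * M : ℕ) : ℤ) * (-M)) (1 + l * M) (by push_cast; ring)
      (dvd_mul_right _ _) _ h0.2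
    have h2 : (((1 + l * M : ℤ)) : ZMod (l * M)) = 1 := by
      have h3 : ((l * M : ℕ) : ZMod (l * M)) = 0 := ZMod.natCast_self _
      push_cast at h3 ⊢
      rw [h3, add_zero]
    rw [h2, map_one, one_mul, hz 0 AL.zero, mul_zero, sub_zero] at h1
    push_cast at h1
    rw [← h1, kk, kk]
    congr 2
    have h4 := (Rqm X (AL.qm X.cop (hx.add hlne (AL.nat l)))).1
    have h5 := h0.1
    have e1 : (1 - (l : ℚ) * M) * (x / (M * x + 1)) + l = (x + l) / (M * x + 1) := by
      rw [eq_div_iff h5, add_mul, mul_assoc, div_mul_cancel₀ _ h5]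
      ring
    have e2 : (l : ℚ) * M * -(M : ℚ) * (x / (M * x + 1)) + (1 + l * M) =
        (M * (x + l) + 1) / (M * x + 1) := by
      rw [eq_div_iff h5, add_mul, mul_assoc, div_mul_cancel₀ _ h5]
      ring
    rw [e1, e2, div_div_div_cancel_right₀ h5]
  -- shift by `1`
  have h1 : ∀ x : ℚ, AL l x → kk X (x + 1) - kk X x = β / X.α * c1 := by
    intro x hx
    have h2 := hd 1 x AL.one hx
    rw [mul_one, hc1 _ (hx.mull.add hlne (AL.nat j))] at h2
    have := X.α0
    field_simp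
    linear_combination h2
  have h2 : ∀ (n : ℕ) (x : ℚ), AL l x → kk X (x + n) - kk X x = n * (β / X.α * c1) := by
    intro n
    induction n with
    | zero => intro x _; simp
    | succ n ih =>
      intro x hx
      have h3 := ih x hx
      have h4 := h1 (x + n) (hx.add hlne (AL.nat n))
      have e : x + ((n + 1 : ℕ) : ℚ) = x + n + 1 := by push_cast; ring
      rw [e]
      push_cast
      linear_combination h3 + h4
  have hc0 : c1 = 0 := by
    have h3 := h2 l 0 AL.zero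
    rw [hc1 0 AL.zero, X.char, zero_mul] at h3
    exact h3
  -- all shifts
  have h3 : ∀ (n : ℕ) (c : ℤ) (x : ℚ), AL l x → kk X (x + c / (l : ℚ) ^ n) = kk X x := by
    intro n
    induction n with
    | zero =>
      have h4 : ∀ (c : ℕ) (x : ℚ), AL l x → kk X (x + c) = kk X x := by
        intro c x hx
        have h5 := h2 c x hx
        rw [hc0, mul_zero, mul_zero] at h5
        exact sub_eq_zero.1 h5
      intro c x hx
      rw [pow_zero, div_one]
      rcases Int.eq_nat_or_neg c with ⟨m, hm | hm⟩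
      · rw [hm]
        exact h4 m x hx
      · have h5 := h4 m (x + c) (hx.add hlne (AL.int c))
        rw [← h5, hm]
        congr 1
        push_cast
        ring
    | succ n ih =>
      intro c x hx
      have hs : AL l ((c : ℚ) / (l : ℚ) ^ (n + 1)) := ⟨c, n + 1, rfl⟩
      have h4 := hd _ x hs hx
      have hl0 : (l : ℚ) ≠ 0 := by exact_mod_cast hlne
      have e : (l : ℚ) * (c / (l : ℚ) ^ (n + 1)) = c / (l : ℚ) ^ n := by
        rw [pow_succ]
        field_simp
      rw [e, ih c _ (hx.mull.add hlne (AL.nat j)), sub_self, mul_zero] at h4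
      rcases mul_eq_zero.1 h4 with h5 | h5
      · exact absurd h5 X.α0
      · exact sub_eq_zero.1 h5
  obtain ⟨c, n, rfl⟩ := hy
  have h4 := h3 n c 0 AL.zero
  rw [zero_add] at h4
  change kk X _ = 0
  rw [h4, kk, zero_div]
  exact hz 0 AL.zero

end DT.V
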