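import Pool.Agent.Lib.DT.V.StP

/-!
# Part V: every `b/d` with `d ≡ 1` modulo `M` is in the orbit of `0` (`l` an odd prime)
-/

set_option autoImplicit false

namespace DT.V

private theorem scPow (l : ℕ) (hl : l ≠ 0) (M : ℕ) (r : ℚ) (h : E0 l M r) (i : ℕ) :
    E0 l M ((l : ℚ) ^ i * r) := by
  induction i with
  | zero => simpa using h
  | succ i ih =>
    have h1 := (tSc hl M _ ih).1
    have e : (l : ℚ) ^ (i + 1) * r = l * ((l : ℚ) ^ i * r) := by
      rw [pow_succ]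
      ring
    rw [e]
    exact h1

/-- A non-residue modulo `l`. -/
private theorem nonres (l : ℕ) (hl : l.Prime) (hl2 : l ≠ 2) :
    ∃ n : ℤ, ¬ IsSquare (n : ZMod l) ∧ IsCoprime n (l : ℤ) := by
  have : Fact l.Prime := ⟨hl⟩
  obtain ⟨a, ha⟩ := FiniteField.exists_nonsquare (F := ZMod l) (by rw [ZMod.ringChar_zmod_n]; exact hl2)
  refine ⟨(a.val : ℤ), ?_, ?_⟩
  · rw [Int.cast_natCast, ZMod.natCast_zmod_val]
    exact ha
  · have h1 : a ≠ 0 := by
      rintro rfl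
      exact ha IsSquare.zero
    have h2 : ¬ l ∣ a.val := by
      intro h
      apply h1
      have h3 := (ZMod.natCast_eq_zero_iff a.val l).2 h
      rwa [ZMod.natCast_zmod_val] at h3
    exact_mod_cast Nat.isCoprime_iff_coprime.2 ((hl.coprime_iff_not_dvd.2 h2).symm)

/-- Two congruences and coprimality. -/
private theorem crt (m n x y : ℤ) (h : IsCoprime m n) (hx : IsCoprime x m)
    (hy : IsCoprime y n) : ∃ a : ℤ, m ∣ a - x ∧ n ∣ a - y ∧ IsCoprime a (m * n) := by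
  obtain ⟨u, v, huv⟩ := h
  refine ⟨x * (v * n) + y * (u * m), ⟨y * u - x * u, ?_⟩, ⟨x * v - y * v, ?_⟩, ?_⟩
  · have e : v * n = 1 - u * m := by linarith
    rw [e]
    ring
  · have e : u * m = 1 - v * n := by linarith
    rw [e]
    ring
  · apply IsCoprime.mul_right
    · have e : x * (v * n) + y * (u * m) = x + m * (y * u - x * u) := by
        have e1 : v * n = 1 - u * m := by linarith
        rw [e1]
        ring
      rw [e]
      exact hx.add_mul_left_left _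
    · have e : x * (v * n) + y * (u * m) = y + n * (x * v - y * v) := by
        have e1 : u * m = 1 - v * n := by linarith
        rw [e1]
        ring
      rw [e]
      exact hy.add_mul_left_left _

/-- A number `a ≡ d` modulo `M b` and `≡ 1` modulo `4`, prime to `4 M b` (`b` odd). -/
private theorem four (M : ℕ) (b d : ℤ) (hb : Odd b) (h : IsCoprime b d) (hd : (M : ℤ) ∣ d - 1) :
    ∃ a : ℤ, (M : ℤ) * b ∣ a - d ∧ (4 : ℤ) ∣ a - 1 ∧ IsCoprime a (4 * ((M : ℤ) * b)) := by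
  have hdM : IsCoprime d (M : ℤ) := by
    obtain ⟨k, hk⟩ := hd
    exact ⟨1, -k, by linarith⟩
  have hdm : IsCoprime d ((M : ℤ) * b) := hdM.mul_right h.symm
  -- find `t` with `d + M b t ≡ 1` modulo `4`
  have h1 : ∃ t : ℤ, (4 : ℤ) ∣ d + (M : ℤ) * b * t - 1 := by
    obtain ⟨c, hc⟩ := hd
    obtain ⟨e, he⟩ := hb
    -- `d = 1 + M c`, `b = 2 e + 1`; `b * b ≡ 1` modulo `4`
    refine ⟨-(c * b), ?_⟩
    have e1 : d + (M : ℤ) * b * -(c * b) - 1 = 4 * (-(M * c * (e ^ 2 + e))) := by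
      have e2 : d = 1 + M * c := by linarith
      rw [e2, he]
      ring
    rw [e1]
    exact dvd_mul_right _ _
  obtain ⟨t, ht⟩ := h1
  refine ⟨d + (M : ℤ) * b * t, ⟨t, by ring⟩, ht, ?_⟩
  apply IsCoprime.mul_right
  · obtain ⟨k, hk⟩ := ht
    exact ⟨1, -k, by linarith⟩
  · exact hdm.add_mul_left_left _

private theorem dirichlet (l M : ℕ) (hl : l.Prime) (hl2 : l ≠ 2) (hlM : l.Coprime M) (b d : ℤ)
    (hb : Odd b) (hb0 : b ≠ 0) (hM0 : M ≠ 0) (hlb : ¬ (l : ℤ) ∣ b) (h : IsCoprime b d)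
    (hd : (M : ℤ) ∣ d - 1) :
    ∃ p : ℕ, p.Prime ∧ p % 4 = 1 ∧ ¬ IsSquare (l : ZMod p) ∧ ((M : ℤ) * b) ∣ p - d ∧
      b.natAbs < p := by
  obtain ⟨n0, hn0, hn0l⟩ := nonres l hl hl2
  obtain ⟨a0, ha1, ha2, ha3⟩ := four M b d hb h hd
  have hlp : Prime (l : ℤ) := Nat.prime_iff_prime_int.1 hl
  have hcl : IsCoprime (4 * ((M : ℤ) * b)) (l : ℤ) := by
    have h1 : IsCoprime (2 : ℤ) (l : ℤ) := by
      have h2 : Nat.Coprime 2 l := (Nat.coprime_primes Nat.prime_two hl).2 (Ne.symm hl2)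
      exact_mod_cast Nat.isCoprime_iff_coprime.2 h2
    have h3 : IsCoprime (4 : ℤ) (l : ℤ) := by
      have h4 : IsCoprime ((2 : ℤ) ^ 2) (l : ℤ) := h1.pow_left
      norm_num at h4
      exact h4
    have h5 : IsCoprime (M : ℤ) (l : ℤ) := Nat.isCoprime_iff_coprime.2 hlM.symm
    have h6 : IsCoprime b (l : ℤ) := ((hlp.coprime_iff_not_dvd).2 hlb).symm
    exact h3.mul_left (h5.mul_left h6)
  obtain ⟨a, hb1, hb2, hb3⟩ := crt (4 * ((M : ℤ) * b)) l a0 n0 hcl ha3 hn0l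
  set m : ℤ := 4 * ((M : ℤ) * b) * l with hm
  have hm0 : m ≠ 0 := by
    rw [hm]
    refine mul_ne_zero (mul_ne_zero (by norm_num) (mul_ne_zero ?_ hb0)) ?_
    · exact_mod_cast hM0
    · exact_mod_cast hl.ne_zero
  have hN : (m.natAbs : ℕ) ≠ 0 := Int.natAbs_ne_zero.2 hm0
  have hcN : IsCoprime a ((m.natAbs : ℕ) : ℤ) := by
    rcases Int.natAbs_eq m with e | e
    · rw [← e]
      exact hb3
    · have e2 : ((m.natAbs : ℕ) : ℤ) = -m := by omega
      rw [e2]
      exact hb3.neg_right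
  obtain ⟨p, hp1, hp2, hp3⟩ := Nat.forall_exists_prime_gt_and_zmodEq b.natAbs hN hcN
  have hdv : m ∣ (p : ℤ) - a := Int.natAbs_dvd.1 (Int.modEq_iff_dvd.1 hp3.symm)
  have hd4 : 4 * ((M : ℤ) * b) ∣ (p : ℤ) - a := (dvd_mul_right _ _).trans hdv
  have hdl : (l : ℤ) ∣ (p : ℤ) - a := (dvd_mul_left _ _).trans hdv
  have h4 : (4 : ℤ) ∣ (p : ℤ) - 1 := by
    have e : (p : ℤ) - 1 = (p - a) + (a - a0) + (a0 - 1) := by ring
    rw [e]
    exact dvd_add (dvd_add ((dvd_mul_right _ _).trans hd4) ((dvd_mul_right _ _).trans hb1)) ha2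
  have hp4 : p % 4 = 1 := by
    have := hp2.two_le
    omega
  refine ⟨p, hp2, hp4, ?_, ?_, hp1⟩
  · have : Fact p.Prime := ⟨hp2⟩
    have : Fact l.Prime := ⟨hl⟩
    rw [ZMod.exists_sq_eq_prime_iff_of_mod_four_eq_one hp4 hl2]
    have e : ((p : ℕ) : ZMod l) = ((n0 : ℤ) : ZMod l) := by
      have h5 : (l : ℤ) ∣ (p : ℤ) - n0 := by
        have e : (p : ℤ) - n0 = (p - a) + (a - n0) := by ring
        rw [e]
        exact dvd_add hdl hb2
      have h6 := (ZMod.intCast_zmod_eq_zero_iff_dvd ((p : ℤ) - n0) l).2 h5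
      rw [Int.cast_sub, Int.cast_natCast] at h6
      exact sub_eq_zero.1 h6
    rw [e]
    exact hn0
  · have e : (p : ℤ) - d = (p - a) + (a - a0) + (a0 - d) := by ring
    rw [e]
    exact dvd_add (dvd_add ((dvd_mul_left _ _).trans hd4) ((dvd_mul_left _ _).trans hb1)) ha1

private theorem odd_case (l M : ℕ) (hl : l.Prime) (hl2 : l ≠ 2) (hlM : l.Coprime M) (h3 : 2 ≤ M)
    (b d : ℤ) (hb : Odd b) (hlb : ¬ (l : ℤ) ∣ b) (h : IsCoprime b d) (hd : (M : ℤ) ∣ d - 1) :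
    E0 l M (b / d) := by
  have hb0 : b ≠ 0 := by
    rintro rfl
    exact absurd hb (by decide)
  have hd0 : d ≠ 0 := by
    rintro rfl
    have h1 : (M : ℤ) ∣ 1 := by
      have h2 := hd
      rw [zero_sub, dvd_neg] at h2
      exact h2
    have h2 := Int.le_of_dvd one_pos h1
    omega
  obtain ⟨p, hp, hp4, hns, hpd, hpb⟩ := dirichlet l M hl hl2 hlM b d hb hb0 (by omega) hlb h hd
  have hnb : ¬ (p : ℤ) ∣ b := by
    intro h4
    have h5 := Int.natAbs_dvd_natAbs.2 h4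
    have h6 : (p : ℤ).natAbs ≤ b.natAbs := Nat.le_of_dvd (by omega) h5
    have h7 : (p : ℤ).natAbs = p := Int.natAbs_natCast p
    omega
  have hM1 : (M : ℤ) ∣ (p : ℤ) - 1 := by
    have h8 : (M : ℤ) ∣ (p : ℤ) - d := (Dvd.intro _ rfl).trans hpd
    have h9 := dvd_add h8 hd
    have e : (p : ℤ) - d + (d - 1) = p - 1 := by ring
    rwa [e] at h9
  have hE := tStP l M hl h3 p hp hp4 hns hM1 b hnb
  obtain ⟨w, hw⟩ := hpd
  have hl' := E0.lo (AL.int (-w)) hE
  have hp0 : ((p : ℕ) : ℚ) ≠ 0 := by exact_mod_cast hp.ne_zero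
  have hdq : (d : ℚ) ≠ 0 := by exact_mod_cast hd0
  have hdw : (p : ℚ) - d = M * b * w := by exact_mod_cast hw
  have e1 : (M : ℚ) * ((-w : ℤ) : ℚ) * ((b : ℚ) / (p : ℚ)) + 1 = d / p := by
    rw [eq_div_iff hp0]
    push_cast
    have e2 : (M : ℚ) * -w * (b / p) * p = M * -w * b := by
      field_simp
    rw [add_mul, e2]
    linarith
  rw [e1] at hl'
  have e3 : (b : ℚ) / (p : ℚ) / (d / p) = b / d := by
    field_simp
  rw [e3] at hl'
  exact hl'

/-- `b` odd. -/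
private theorem odd_case2 (l M : ℕ) (hl : l.Prime) (hl2 : l ≠ 2) (hlM : l.Coprime M) (h3 : 2 ≤ M)
    (b d : ℤ) (hb : Odd b) (h : IsCoprime b d) (hd : (M : ℤ) ∣ d - 1) :
    E0 l M (b / d) := by
  have hb0 : b ≠ 0 := by
    rintro rfl
    exact absurd hb (by decide)
  obtain ⟨i, b0, hlb, hi⟩ : ∃ (i : ℕ) (b0 : ℤ), ¬ (l : ℤ) ∣ b0 ∧ b = (l : ℤ) ^ i * b0 := by
    obtain ⟨i, m, hm, hbm⟩ := Nat.exists_eq_pow_mul_and_not_dvd (Int.natAbs_ne_zero.2 hb0) l
      hl.ne_one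
    have hm' : ¬ (l : ℤ) ∣ (m : ℤ) := by
      intro h
      exact hm (by exact_mod_cast h)
    rcases Int.natAbs_eq b with e | e
    · exact ⟨i, m, hm', by rw [e, hbm]; push_cast; ring⟩
    · exact ⟨i, -m, by rwa [dvd_neg], by rw [e, hbm]; push_cast; ring⟩
  have hb0' : Odd b0 := by
    rw [hi] at hb
    exact (Int.odd_mul.1 hb).2
  have hc : IsCoprime b0 d := by
    rw [hi] at h
    exact (IsCoprime.of_mul_left_right h)
  have h1 := scPow l hl.ne_zero M _ (odd_case l M hl hl2 hlM h3 b0 d hb0' hlb hc hd) i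
  have e : (b : ℚ) / d = (l : ℚ) ^ i * (b0 / d) := by
    rw [hi]
    push_cast
    ring
  rw [e]
  exact h1

/-- **The orbit of `0`.** -/
theorem tSt (l M : ℕ) (hl : l.Prime) (hl2 : l ≠ 2) (hlM : l.Coprime M) (h3 : 2 ≤ M) (b d : ℤ)
    (h : IsCoprime b d) (hd : (M : ℤ) ∣ d - 1) : E0 l M (b / d) := by
  rcases Int.even_or_odd b with hb | hb
  · have hdo : Odd d := by
      rcases Int.even_or_odd d with h5 | h5
      · exfalso
        obtain ⟨x, hx⟩ := hb
        obtain ⟨y, hy⟩ := h5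
        obtain ⟨u, v, huv⟩ := h
        rw [hx, hy] at huv
        have h6 : (2 : ℤ) ∣ 1 := ⟨u * x + v * y, by linarith⟩
        omega
      · exact h5
    have h1 : Odd (b + d) := hb.add_odd hdo
    have h2 : IsCoprime (b + d) d := by
      have h4 := h.add_mul_left_left 1
      rwa [mul_one] at h4
    have h4 := odd_case2 l M hl hl2 hlM h3 (b + d) d h1 h2 hd
    have h5 := E0.up (AL.int (-1)) h4
    have hd0 : (d : ℚ) ≠ 0 := by
      have : d ≠ 0 := by
        rintro rfl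
        exact absurd hdo (by decide)
      exact_mod_cast this
    have e : (((b + d : ℤ) : ℚ)) / d + ((-1 : ℤ) : ℚ) = b / d := by
      push_cast
      field_simp
      ring
    rw [e] at h5
    exact h5
  · exact odd_case2 l M hl hl2 hlM h3 b d hb h hd

end DT.V
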