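import Pool.Agent.Lib.DT.V.Base
import Pool.Agent.Lib.DT.V.Pw
import Pool.Agent.Lib.DI.V.Pr
import Pool.Agent.Lib.DI.V.Ex

/-!
# Part V: the case of a prime `p ≡ 1` modulo `4` and modulo `M`, `l` not a square modulo `p`
-/

set_option autoImplicit false

namespace DT.V

private theorem chSq (l p : ℕ) (hp : p.Prime) (h2 : ¬ IsSquare (l : ZMod p)) (x : ZMod p)
    (hx : x ≠ 0) : IsSquare x ∨ IsSquare ((l : ZMod p) * x) := by
  have : Fact p.Prime := ⟨hp⟩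
  by_cases h : IsSquare x
  · exact Or.inl h
  · right
    have h20 : (l : ZMod p) ≠ 0 := by
      intro h0
      exact h2 (h0 ▸ IsSquare.zero)
    have e1 : quadraticChar (ZMod p) x = -1 := quadraticChar_neg_one_iff_not_isSquare.2 h
    have e2 : quadraticChar (ZMod p) (l : ZMod p) = -1 :=
      quadraticChar_neg_one_iff_not_isSquare.2 h2
    have e3 : quadraticChar (ZMod p) ((l : ZMod p) * x) = 1 := by
      rw [map_mul, e1, e2]
      norm_num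
    exact (quadraticChar_one_iff_isSquare (mul_ne_zero h20 hx)).1 e3

/-- Squares among the numbers `l ^ j b`. -/
theorem tCh (l p : ℕ) (hp : p.Prime) (h4p : p % 4 = 1) (h2 : ¬ IsSquare (l : ZMod p)) (b : ℤ)
    (hb : ¬ (p : ℤ) ∣ b) : ∃ j : ℕ, IsSquare (((l : ℤ) ^ j * b : ℤ) : ZMod p) ∧
      ¬ (p : ℤ) ∣ (l : ℤ) ^ j * b - 1 := by
  have : Fact p.Prime := ⟨hp⟩
  have hb0 : (b : ZMod p) ≠ 0 := by
    intro h
    exact hb ((ZMod.intCast_zmod_eq_zero_iff_dvd b p).1 h)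
  have hm1 : IsSquare (-1 : ZMod p) := by
    rw [ZMod.exists_sq_eq_neg_one_iff]
    omega
  have h4 : ∀ y : ZMod p, IsSquare y → IsSquare ((l : ZMod p) ^ 2 * y) := by
    rintro y ⟨r, rfl⟩
    exact ⟨(l : ZMod p) * r, by ring⟩
  -- `l² ≢ 1`
  have h3 : ¬ (p : ℤ) ∣ (l : ℤ) ^ 2 - 1 := by
    intro h
    have h5 : (l : ZMod p) * (l : ZMod p) = 1 := by
      have h6 := (ZMod.intCast_zmod_eq_zero_iff_dvd ((l : ℤ) ^ 2 - 1) p).2 h
      push_cast at h6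
      rw [← sq]
      exact sub_eq_zero.1 h6
    rcases mul_self_eq_one_iff.1 h5 with h6 | h6
    · exact h2 (h6 ▸ IsSquare.one)
    · exact h2 (h6 ▸ hm1)
  have hlp : ¬ (p : ℤ) ∣ (l : ℤ) := by
    intro h
    apply h2
    have h5 : ((l : ℤ) : ZMod p) = 0 := (ZMod.intCast_zmod_eq_zero_iff_dvd (l : ℤ) p).2 h
    rw [Int.cast_natCast] at h5
    rw [h5]
    exact IsSquare.zero
  -- at most one of two numbers is `1`
  have h7 : ∀ x : ℤ, (p : ℤ) ∣ x - 1 → ¬ (p : ℤ) ∣ (l : ℤ) ^ 2 * x - 1 := by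
    intro x h1 h5
    apply h3
    have e : (l : ℤ) ^ 2 - 1 = ((l : ℤ) ^ 2 * x - 1) - (l : ℤ) ^ 2 * (x - 1) := by ring
    rw [e]
    exact dvd_sub h5 (Dvd.dvd.mul_left h1 _)
  rcases chSq l p hp h2 (b : ZMod p) hb0 with h | h
  · by_cases h1 : (p : ℤ) ∣ b - 1
    · refine ⟨2, ?_, h7 b h1⟩
      push_cast
      exact h4 _ h
    · refine ⟨0, ?_, ?_⟩
      · simpa using h
      · simpa using h1
  · by_cases h1 : (p : ℤ) ∣ (l : ℤ) * b - 1
    · refine ⟨3, ?_, ?_⟩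
      · have e : (((l : ℤ) ^ 3 * b : ℤ) : ZMod p) = (l : ZMod p) ^ 2 * ((l : ZMod p) * (b : ZMod p)) := by
          push_cast
          ring
        rw [e]
        exact h4 _ h
      · have h5 := h7 _ h1
        have e : (l : ℤ) ^ 3 * b - 1 = (l : ℤ) ^ 2 * ((l : ℤ) * b) - 1 := by ring
        rw [e]
        exact h5
    · refine ⟨1, ?_, ?_⟩
      · have e : (((l : ℤ) ^ 1 * b : ℤ) : ZMod p) = (l : ZMod p) * (b : ZMod p) := by
          push_cast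
          ring
        rw [e]
        exact h
      · rw [pow_one]
        exact h1

/-- Division by a power of `l`. -/
private theorem stHalf (l : ℕ) (hl : l ≠ 0) (M k : ℕ) (r : ℚ) (hr : E0 l M ((l : ℚ) ^ k * r)) :
    E0 l M r := by
  have h0 : (l : ℚ) ≠ 0 := by exact_mod_cast hl
  induction k with
  | zero => simpa using hr
  | succ k ih =>
    refine ih ?_
    have h1 := (tSc hl M _ hr).2
    have e : (l : ℚ) ^ (k + 1) * r / l = (l : ℚ) ^ k * r := by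
      rw [pow_succ]
      field_simp
    rwa [e] at h1

/-- The exact power of `p` dividing `l ^ (p - 1) - 1`. -/
private theorem stPow (l : ℕ) (hl : 2 ≤ l) (p : ℕ) (hp : p.Prime) (hp2 : p ≠ 2)
    (hlp : l.Coprime p) :
    ∃ (s : ℕ) (u : ℤ), 1 ≤ s ∧ ¬ (p : ℤ) ∣ u ∧ (l : ℤ) ^ (p - 1) = 1 + (p : ℤ) ^ s * u := by
  have hp3 : 2 < p := lt_of_le_of_ne hp.two_le (Ne.symm hp2)
  have h1 : 1 < l ^ (p - 1) := Nat.one_lt_pow (by omega) (by omega)
  obtain ⟨n, hn⟩ : ∃ n, l ^ (p - 1) = 1 + n := ⟨l ^ (p - 1) - 1, by omega⟩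
  have hn0 : n ≠ 0 := by omega
  obtain ⟨s, u, hu, hsu⟩ := Nat.exists_eq_pow_mul_and_not_dvd hn0 p hp.ne_one
  have hF : (p : ℤ) ∣ (n : ℤ) := by
    have h2 : (l : ℤ) ^ (p - 1) ≡ 1 [ZMOD p] := by
      refine Int.ModEq.pow_card_sub_one_eq_one hp ?_
      exact_mod_cast Nat.isCoprime_iff_coprime.2 hlp
    have h4 := (Int.modEq_iff_dvd.1 h2.symm)
    have h5 : (l : ℤ) ^ (p - 1) - 1 = n := by
      have h6 : ((l ^ (p - 1) : ℕ) : ℤ) = 1 + n := by exact_mod_cast hn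
      push_cast at h6
      linarith
    rwa [h5] at h4
  have hF' : p ∣ n := by exact_mod_cast hF
  refine ⟨s, u, ?_, ?_, ?_⟩
  · rcases Nat.eq_zero_or_pos s with h0 | h0
    · rw [h0, pow_zero, one_mul] at hsu
      rw [hsu] at hF'
      exact absurd hF' hu
    · exact h0
  · intro h0
    exact hu (by exact_mod_cast h0)
  · rw [hsu] at hn
    exact_mod_cast hn

/-- Part (1): `q2 / p ^ e`. -/
private theorem stOne (l M p q e : ℕ) (hM : 2 ≤ M) (hq : q.Prime) (hMq : M < q)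
    (hMp : (M : ℤ) ∣ p - 1) (h : (q : ℤ) ∣ (p : ℤ) ^ e - 1) : E0 l M (q / p ^ e) := by
  have h1 : (M : ℤ) ∣ (p : ℤ) ^ e - 1 := hMp.trans (sub_one_dvd_pow_sub_one (p : ℤ) e)
  have h2 : IsCoprime (M : ℤ) (q : ℤ) := by
    have h3 : Nat.Coprime q M :=
      (Nat.Prime.coprime_iff_not_dvd hq).2 fun h4 => absurd (Nat.le_of_dvd (by omega) h4) (by omega)
    exact Nat.isCoprime_iff_coprime.2 h3.symm
  obtain ⟨z, hz⟩ := h2.mul_dvd h1 h
  have h5 : E0 l M (0 + q) := E0.up (AL.nat q) E0.zero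
  have h6 := E0.lo (AL.int z) h5
  have e1 : (M : ℚ) * z * (0 + q) + 1 = (p : ℚ) ^ e := by
    have h7 : (((p : ℤ) ^ e - 1 : ℤ) : ℚ) = ((M : ℤ) * q * z : ℤ) := by rw [hz]
    push_cast at h7
    linarith
  rw [e1, zero_add] at h6
  exact h6

/-- Part (2), the exponent of `l`. -/
private theorem stTwo (l : ℤ) (p : ℕ) (hp : p.Prime) (hp2 : p ≠ 2) (s : ℕ) (u : ℤ)
    (hs : 1 ≤ s) (hu : ¬ (p : ℤ) ∣ u) (h2 : l ^ (p - 1) = 1 + (p : ℤ) ^ s * u) (a c : ℤ)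
    (ha : ¬ (p : ℤ) ∣ a) (hac : (p : ℤ) ^ s ∣ a - c) (e : ℕ) :
    ∃ (k : ℕ) (t : ℤ), l ^ k * a = c + (p : ℤ) ^ e * t := by
  have hpp : Prime (p : ℤ) := Nat.prime_iff_prime_int.1 hp
  have hc1 : IsCoprime (p : ℤ) a := (hpp.coprime_iff_not_dvd).2 ha
  have hc2 : IsCoprime ((p : ℤ) ^ (max e s)) a := hc1.pow_left
  obtain ⟨v, w, hvw⟩ := hc2
  obtain ⟨x, hx⟩ : ∃ x : ℤ, x = w * c := ⟨_, rfl⟩
  have hx1 : x * a - c = (p : ℤ) ^ (max e s) * (-(v * c)) := by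
    rw [hx]
    linear_combination c * hvw
  have hd1 : (p : ℤ) ^ (max e s) ∣ x * a - c := ⟨_, hx1⟩
  have hs1 : (p : ℤ) ^ s ∣ x - 1 := by
    have h3 : (p : ℤ) ^ s ∣ x * a - c := (pow_dvd_pow (p : ℤ) (le_max_right e s)).trans hd1
    have h4 : (p : ℤ) ^ s ∣ (x - 1) * a := by
      have h5 := dvd_sub h3 hac
      have h6 : x * a - c - (a - c) = (x - 1) * a := by ring
      rwa [h6] at h5
    exact (hc1.pow_left (m := s)).dvd_of_dvd_mul_right h4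
  obtain ⟨k, hk⟩ := tPw l p hp hp2 s u x hs hu h2 hs1 e
  have h7 : (p : ℤ) ^ e ∣ l ^ k * a - c := by
    have h8 : (p : ℤ) ^ e ∣ x * a - c := (pow_dvd_pow (p : ℤ) (le_max_left e s)).trans hd1
    have h9 := dvd_add (hk.mul_right a) h8
    have h10 : (l ^ k - x) * a + (x * a - c) = l ^ k * a - c := by ring
    rwa [h10] at h9
  obtain ⟨t, ht⟩ := h7
  exact ⟨k, t, by linarith⟩

/-- Part (4): from `q / p ^ e` to `q / p`. -/
private theorem stFour (l M p q e : ℕ) (hM : 2 ≤ M) (hp : p.Prime) (hq : q.Prime) (hMq : M < q)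
    (hMp : (M : ℤ) ∣ p - 1) (h : (q : ℤ) ∣ (p : ℤ) ^ e - p)
    (h0 : E0 l M (q / p ^ e)) : E0 l M (q / p) := by
  have h1 : (M : ℤ) ∣ (p : ℤ) ^ e - p := by
    have h2 : (M : ℤ) ∣ (p : ℤ) ^ e - 1 := hMp.trans (sub_one_dvd_pow_sub_one (p : ℤ) e)
    have h3 := dvd_sub h2 hMp
    have h4 : (p : ℤ) ^ e - 1 - (p - 1) = (p : ℤ) ^ e - p := by ring
    rwa [h4] at h3
  have h2 : IsCoprime (M : ℤ) (q : ℤ) := by
    have h3 : Nat.Coprime q M :=
      (Nat.Prime.coprime_iff_not_dvd hq).2 fun h4 => absurd (Nat.le_of_dvd (by omega) h4) (by omega)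
    exact Nat.isCoprime_iff_coprime.2 h3.symm
  obtain ⟨w, hw⟩ := h2.mul_dvd h1 h
  have h6 := E0.lo ((AL.int w).neg) h0
  have hp0 : (p : ℚ) ≠ 0 := by exact_mod_cast hp.ne_zero
  have h7 : (p : ℚ) ^ e = p + M * q * w := by
    have h8 : (((p : ℤ) ^ e - p : ℤ) : ℚ) = ((M : ℤ) * q * w : ℤ) := by rw [hw]
    push_cast at h8
    linarith
  have hpe : (p : ℚ) ^ e ≠ 0 := pow_ne_zero e hp0
  have e1 : (M : ℚ) * -w * (q / p ^ e) + 1 = p / p ^ e := by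
    have e2 : (M : ℚ) * -w * (q / p ^ e) + 1 = (p ^ e - M * q * w) / p ^ e := by
      field_simp
      ring
    rw [e2]
    have e3 : (p : ℚ) ^ e - M * q * w = p := by linarith
    rw [e3]
  rw [e1, div_div_div_cancel_right₀ hpe] at h6
  exact h6

theorem tStP (l M : ℕ) (hl : l.Prime) (hM : 2 ≤ M) (p : ℕ) (hp : p.Prime) (hp4 : p % 4 = 1)
    (hns : ¬ IsSquare (l : ZMod p)) (hMp : (M : ℤ) ∣ p - 1) (b : ℤ) (hb : ¬ (p : ℤ) ∣ b) :
    E0 l M (b / p) := by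
  have hp2 : p ≠ 2 := by
    rintro rfl
    omega
  have hpp : Prime (p : ℤ) := Nat.prime_iff_prime_int.1 hp
  have hlp' : l ≠ p := by
    rintro rfl
    apply hns
    rw [ZMod.natCast_self]
    exact IsSquare.zero
  obtain ⟨s, u, hs, hu, h2⟩ := stPow l hl.two_le p hp hp2 ((Nat.coprime_primes hl hp).2 hlp')
  obtain ⟨j, hj1, hj2⟩ := tCh l p hp hp4 hns b hb
  obtain ⟨c, hc⟩ : ∃ c : ℤ, c = (l : ℤ) ^ j * b := ⟨_, rfl⟩
  rw [← hc] at hj1 hj2
  have hp2' : ¬ (p : ℤ) ∣ (l : ℤ) := by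
    intro h3
    have h4 : p ∣ l := by exact_mod_cast h3
    exact hlp' ((Nat.prime_dvd_prime_iff_eq hp hl).1 h4).symm
  have hcp : ¬ (p : ℤ) ∣ c := by
    intro h3
    rw [hc] at h3
    rcases hpp.dvd_or_dvd h3 with h4 | h4
    · exact hp2' (hpp.dvd_of_dvd_pow h4)
    · exact hb h4
  obtain ⟨q1, q2, hq1, hq2, hM1, hM2, hd1, hd2, h41, h42, hco⟩ :=
    DI.V.tPr p hp hp2 s c hs hcp hj2 M
  have hps : (p : ℤ) ∣ (p : ℤ) ^ s := dvd_pow_self _ (by omega)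
  have hsq1 : IsSquare (q1 : ZMod p) := by
    have h3 : ((q1 : ℤ) : ZMod p) = ((c : ℤ) : ZMod p) := by
      have h4 := (ZMod.intCast_zmod_eq_zero_iff_dvd ((q1 : ℤ) - c) p).2 (hps.trans hd1)
      rw [Int.cast_sub] at h4
      exact sub_eq_zero.1 h4
    rw [← h3, Int.cast_natCast] at hj1
    exact hj1
  have hsq2 : IsSquare (q2 : ZMod p) := by
    have h3 : ((q2 : ℤ) : ZMod p) = ((q1 : ℤ) : ZMod p) := by
      have h4 := (ZMod.intCast_zmod_eq_zero_iff_dvd ((q2 : ℤ) - q1) p).2 (by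
        have h5 := dvd_sub (hps.trans hd2) (hps.trans hd1)
        have h6 : (q2 : ℤ) - c - (q1 - c) = q2 - q1 := by ring
        rwa [h6] at h5)
      rw [Int.cast_sub] at h4
      exact sub_eq_zero.1 h4
    rw [Int.cast_natCast, Int.cast_natCast] at h3
    rw [h3]
    exact hsq1
  obtain ⟨e, _, he1, he2⟩ := DI.V.tEx p q1 q2 hp hq1 hq2 hp4 h41 h42 hsq1 hsq2 hco
  have hE1 : E0 l M (q2 / p ^ e) := stOne l M p q2 e hM hq2 hM2 hMp he2
  have hq1p : ¬ (p : ℤ) ∣ q1 := by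
    intro h3
    refine hcp ?_
    have h4 := dvd_sub h3 (hps.trans hd1)
    have h5 : (q1 : ℤ) - (q1 - c) = c := by ring
    rwa [h5] at h4
  have hq12 : (p : ℤ) ^ s ∣ (q1 : ℤ) - q2 := by
    have h4 := dvd_sub hd1 hd2
    have h5 : (q1 : ℤ) - c - (q2 - c) = q1 - q2 := by ring
    rwa [h5] at h4
  obtain ⟨k, t, hkt⟩ := stTwo l p hp hp2 s u hs hu h2 q1 q2 hq1p hq12 e
  have hp0 : (p : ℚ) ≠ 0 := by exact_mod_cast hp.ne_zero
  have hpe : (p : ℚ) ^ e ≠ 0 := pow_ne_zero e hp0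
  have hE2 : E0 l M ((l : ℚ) ^ k * (q1 / p ^ e)) := by
    have h3 := E0.up (AL.int t) hE1
    have h4 : ((l : ℚ)) ^ k * q1 = q2 + p ^ e * t := by
      have h5 : (((l : ℤ) ^ k * q1 : ℤ) : ℚ) = ((q2 + p ^ e * t : ℤ) : ℚ) := by rw [hkt]
      push_cast at h5
      exact h5
    have h6 : (l : ℚ) ^ k * (q1 / p ^ e) = q2 / p ^ e + t := by
      rw [← mul_div_assoc, h4]
      field_simp
    rw [h6]
    exact h3
  have hE3 : E0 l M (q1 / p ^ e) := stHalf l hl.ne_zero M k _ hE2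
  have hE4 : E0 l M (q1 / p) := stFour l M p q1 e hM hp hq1 hM1 hMp he1 hE3
  have hE5 : E0 l M ((l : ℚ) ^ j * (b / p)) := by
    obtain ⟨y, hy⟩ := hps.trans hd1
    have h3 := E0.up (AL.int (-y)) hE4
    have h4 : (l : ℚ) ^ j * b = q1 - p * y := by
      have h5 : (((l : ℤ) ^ j * b : ℤ) : ℚ) = ((q1 - p * y : ℤ) : ℚ) := by
        rw [← hc, ← hy]
        congr 1
        ring
      push_cast at h5
      exact h5
    have h6 : (l : ℚ) ^ j * (b / p) = q1 / p + ((-y : ℤ) : ℚ) := by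
      rw [← mul_div_assoc, h4]
      push_cast
      field_simp
      ring
    rw [h6]
    exact h3
  exact stHalf l hl.ne_zero M j _ hE5



end DT.V
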