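import Pool.Agent.Lib.DT.V.R
import Pool.Agent.Lib.DT.V.St

/-!
# THEOREM V for every prime `l` (level `l M`, eigenfunctions of `U_l`)
-/

set_option autoImplicit false

namespace DT.V

open DI.V (QM)

variable {l M : ℕ} {F : Type} [Field F]

/-- For `g ∈ Γ₀(M)` the function `y ↦ h (g y)` is constant on `ℤ[1/l]`. -/
theorem tVi (X : Sy l M F) (hz : ∀ y, AL l y → X.h y = 0) (a b c d : ℤ) (hdet : a * d - b * c = 1)
    (hc : (M : ℤ) ∣ c) (y : ℚ) (hy : AL l y) : X.h ((a * y + b) / (c * y + d)) = X.h (b / d) := by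
  have hlp : Prime (l : ℤ) := Nat.prime_iff_prime_int.1 X.prime
  obtain ⟨c', rfl⟩ := hc
  by_cases hl : (l : ℤ) ∣ c'
  · -- `g ∈ Γ₀(l M)`
    obtain ⟨c'', rfl⟩ := hl
    have h1 := X.v1 a b (M * (l * c'')) d hdet ⟨c'', by push_cast; ring⟩ y (AL.qm X.cop hy)
    rw [hz y hy, hz 0 AL.zero, mul_zero, sub_zero, sub_zero] at h1
    exact h1
  · -- `g = γ R T^i`
    have hcM : IsCoprime (l : ℤ) (c' * M) := by
      have h1 : IsCoprime (l : ℤ) c' := (hlp.coprime_iff_not_dvd).2 hl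
      exact h1.mul_right (Nat.isCoprime_iff_coprime.2 X.cop)
    obtain ⟨u, v, huv⟩ := hcM
    -- `i M c' ≡ d - c'` modulo `l`
    obtain ⟨i, hi⟩ : ∃ i : ℤ, i = (d - c') * v := ⟨_, rfl⟩
    have hdv : (l : ℤ) ∣ c' - (d - i * (M * c')) := by
      refine ⟨-(d - c') * u, ?_⟩
      rw [hi]
      linear_combination (d - c') * huv
    obtain ⟨e, he⟩ := hdv
    -- `γ`
    have hdet' : (a - M * (b - i * a)) * (d - i * (M * c')) - (b - i * a) *
        (((l * M : ℕ) : ℤ) * e) = 1 := by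
      push_cast
      linear_combination hdet + (M : ℤ) * (b - i * a) * he
    have key : ∀ x : ℚ, AL l x → X.h ((a * x + b) / (((M * c' : ℤ) : ℚ) * x + d)) =
        X.h (((b - i * a : ℤ) : ℚ) / ((d - i * (M * c') : ℤ) : ℚ)) := by
      intro x hx
      have hxi : AL l (x + i) := hx.add X.prime.ne_zero (AL.int i)
      have h2 := (AL.qm X.cop hxi).one_add X.two
      have h3 : QM M ((x + i) / (M * (x + i) + 1)) := by
        rw [← mul_one_div]
        exact (AL.qm X.cop hxi).mul h2.2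
      have h4 := X.v1 _ _ _ _ hdet' (dvd_mul_right _ _) _ h3
      rw [tR X hz _ hxi, hz 0 AL.zero, mul_zero, sub_zero, sub_zero] at h4
      rw [← h4]
      congr 1
      have h5 := h2.1
      have he' : (c' : ℚ) - (d - i * (M * c')) = l * e := by exact_mod_cast he
      have e1 : ((a - M * (b - i * a) : ℤ) : ℚ) * ((x + i) / (M * (x + i) + 1)) +
          ((b - i * a : ℤ) : ℚ) = (a * x + b) / (M * (x + i) + 1) := by
        rw [eq_div_iff h5, add_mul, mul_assoc, div_mul_cancel₀ _ h5]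
        push_cast
        ring
      have e2 : ((((l * M : ℕ) : ℤ) * e : ℤ) : ℚ) * ((x + i) / (M * (x + i) + 1)) +
          ((d - i * (M * c') : ℤ) : ℚ) = (((M * c' : ℤ) : ℚ) * x + d) / (M * (x + i) + 1) := by
        rw [eq_div_iff h5, add_mul, mul_assoc, div_mul_cancel₀ _ h5]
        push_cast
        linear_combination (-(M : ℚ) * (x + i)) * he'
      rw [e1, e2, div_div_div_cancel_right₀ h5]
    have h0 := key 0 AL.zero
    rw [mul_zero, mul_zero, zero_add, zero_add] at h0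
    rw [h0, key y hy]

/-- Decomposition of the matrices over `ℤ[1/l]`. -/
private theorem common (l : ℕ) (hl : l ≠ 0) {x : ℚ} (hx : AL l x) :
    ∃ n0 : ℕ, ∀ k : ℕ, ∃ c : ℤ, x = c / (l : ℚ) ^ (n0 + k) := by
  obtain ⟨c, n, rfl⟩ := hx
  have h0 : (l : ℚ) ≠ 0 := by exact_mod_cast hl
  refine ⟨n, fun k => ⟨c * l ^ k, ?_⟩⟩
  push_cast
  rw [pow_add]
  field_simp

private theorem common4 (l : ℕ) (hl : l ≠ 0) {a b z d : ℚ} (ha : AL l a) (hb : AL l b)
    (hz : AL l z) (hd : AL l d) :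
    ∃ (n : ℕ) (a1 b1 z1 d1 : ℤ), a = a1 / (l : ℚ) ^ n ∧ b = b1 / (l : ℚ) ^ n ∧
      z = z1 / (l : ℚ) ^ n ∧ d = d1 / (l : ℚ) ^ n := by
  obtain ⟨na, ka⟩ := common l hl ha
  obtain ⟨nb, kb⟩ := common l hl hb
  obtain ⟨nz, kz⟩ := common l hl hz
  obtain ⟨nd, kd⟩ := common l hl hd
  obtain ⟨a1, h1⟩ := ka (nb + nz + nd)
  obtain ⟨b1, h2⟩ := kb (na + nz + nd)
  obtain ⟨z1, h3⟩ := kz (na + nb + nd)
  obtain ⟨d1, h4⟩ := kd (na + nb + nz)
  refine ⟨na + nb + nz + nd, a1, b1, z1, d1, ?_, ?_, ?_, ?_⟩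
  · rw [h1]; congr 2; omega
  · rw [h2]; congr 2; omega
  · rw [h3]; congr 2; omega
  · rw [h4]; congr 2; omega

private theorem split {l M : ℕ} (hl : l.Prime) (hM : l.Coprime M) {n : ℕ} {a1 b1 z1 d1 : ℤ}
    (h : a1 * d1 - b1 * (M * z1) = (l : ℤ) ^ (2 * n)) :
    ∃ (i k : ℕ) (a0 c0 : ℤ), a1 = (l : ℤ) ^ i * a0 ∧ M * z1 = (l : ℤ) ^ i * c0 ∧
      IsCoprime a0 c0 ∧ (M : ℤ) ∣ c0 ∧ a0 * d1 - c0 * b1 = (l : ℤ) ^ k := by
  have hl0 : (l : ℤ) ≠ 0 := by exact_mod_cast hl.ne_zero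
  have hg : ((Int.gcd a1 (M * z1) : ℕ) : ℤ) ∣ (l : ℤ) ^ (2 * n) := by
    rw [← h]
    exact dvd_sub (Dvd.dvd.mul_right (Int.gcd_dvd_left _ _) _)
      (Dvd.dvd.mul_left (Int.gcd_dvd_right _ _) _)
  have hg' : Int.gcd a1 (M * z1) ∣ l ^ (2 * n) := by exact_mod_cast hg
  obtain ⟨i, hi, e⟩ := (Nat.dvd_prime_pow hl).1 hg'
  have hpos : 0 < Int.gcd a1 (M * z1) := by
    rw [e]
    exact pow_pos hl.pos i
  obtain ⟨a0, c0, h1, h2, h3⟩ := Int.exists_gcd_one hpos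
  rw [e] at h2 h3
  push_cast at h2 h3
  have hM2 : IsCoprime (M : ℤ) ((l : ℤ) ^ i) := by
    refine IsCoprime.pow_right ?_
    exact_mod_cast Nat.isCoprime_iff_coprime.2 hM.symm
  refine ⟨i, 2 * n - i, a0, c0, by rw [h2, mul_comm], by rw [h3, mul_comm],
    Int.isCoprime_iff_gcd_eq_one.2 h1, ?_, ?_⟩
  · refine hM2.dvd_of_dvd_mul_right ?_
    rw [← h3]
    exact dvd_mul_right _ _
  · have h4 : (l : ℤ) ^ i * (a0 * d1 - c0 * b1) = (l : ℤ) ^ i * (l : ℤ) ^ (2 * n - i) := by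
      rw [← pow_add, Nat.add_sub_cancel' hi, ← h, h3]
      rw [h2]
      ring
    exact mul_left_cancel₀ (pow_ne_zero i hl0) h4

theorem tDec {l M : ℕ} (hl : l.Prime) (hM : l.Coprime M) (a b z d : ℚ) (ha : AL l a) (hb : AL l b)
    (hz : AL l z) (hd : AL l d) (h : a * d - b * (M * z) = 1) :
    ∃ a0 b0 c0 d0 : ℤ, a0 * d0 - b0 * c0 = 1 ∧ (M : ℤ) ∣ c0 ∧ ∀ y : ℚ, AL l y →
      ∃ y' : ℚ, AL l y' ∧ (a * y + b) / (M * z * y + d) = (a0 * y' + b0) / (c0 * y' + d0) := by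
  have hl0 : (l : ℚ) ≠ 0 := by exact_mod_cast hl.ne_zero
  obtain ⟨n, a1, b1, z1, d1, rfl, rfl, rfl, rfl⟩ := common4 l hl.ne_zero ha hb hz hd
  have h1 : a1 * d1 - b1 * (M * z1) = (l : ℤ) ^ (2 * n) := by
    have h2 : ((a1 : ℚ) * d1 - b1 * (M * z1)) = (l : ℚ) ^ (2 * n) := by
      have h3 : (l : ℚ) ^ n ≠ 0 := pow_ne_zero n hl0
      have e : (a1 : ℚ) * d1 - b1 * (M * z1) =
          (a1 / (l : ℚ) ^ n * (d1 / (l : ℚ) ^ n) -
            b1 / (l : ℚ) ^ n * (M * (z1 / (l : ℚ) ^ n))) * ((l : ℚ) ^ n * (l : ℚ) ^ n) := by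
        field_simp
      rw [e, h, one_mul, ← pow_add, two_mul]
    exact_mod_cast h2
  obtain ⟨i, k, a0, c0, e1, e2, h2, h3, h4⟩ := split hl hM h1
  obtain ⟨u, v, h5⟩ := h2
  refine ⟨a0, -v, c0, u, by linarith, h3, fun y hy => ?_⟩
  have hD : (l : ℚ) ^ k ≠ 0 := pow_ne_zero k hl0
  have hn : (l : ℚ) ^ n ≠ 0 := pow_ne_zero n hl0
  have q1 : (a1 : ℚ) = (l : ℚ) ^ i * a0 := by exact_mod_cast e1
  have q2 : (M : ℚ) * z1 = (l : ℚ) ^ i * c0 := by exact_mod_cast e2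
  have q4 : (a0 : ℚ) * d1 - c0 * b1 = (l : ℚ) ^ k := by exact_mod_cast h4
  have q5 : (u : ℚ) * a0 + v * c0 = 1 := by exact_mod_cast h5
  refine ⟨((l : ℚ) ^ i * y + u * b1 + v * d1) / (l : ℚ) ^ k, ?_, ?_⟩
  · refine AL.div_pow ?_ k
    refine AL.add hl.ne_zero (AL.add hl.ne_zero (AL.mul ?_ hy) ((AL.int u).mul (AL.int b1)))
      ((AL.int v).mul (AL.int d1))
    have := AL.nat (l := l) (l ^ i)
    push_cast at this
    exact this
  · have r1 : (a0 : ℚ) * (((l : ℚ) ^ i * y + u * b1 + v * d1) / (l : ℚ) ^ k) + ((-v : ℤ) : ℚ) =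
        (a1 * y + b1) / (l : ℚ) ^ k := by
      push_cast
      rw [eq_div_iff hD, add_mul, mul_assoc, div_mul_cancel₀ _ hD, ← q4, q1]
      linear_combination (b1 : ℚ) * q5
    have r2 : (c0 : ℚ) * (((l : ℚ) ^ i * y + u * b1 + v * d1) / (l : ℚ) ^ k) + (u : ℚ) =
        (M * z1 * y + d1) / (l : ℚ) ^ k := by
      rw [eq_div_iff hD, add_mul, mul_assoc, div_mul_cancel₀ _ hD, ← q4, q2]
      linear_combination (d1 : ℚ) * q5
    have r3 : (a1 : ℚ) / (l : ℚ) ^ n * y + b1 / (l : ℚ) ^ n = (a1 * y + b1) / (l : ℚ) ^ n := by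
      rw [add_div]; ring
    have r4 : (M : ℚ) * (z1 / (l : ℚ) ^ n) * y + d1 / (l : ℚ) ^ n =
        (M * z1 * y + d1) / (l : ℚ) ^ n := by
      rw [add_div]; ring
    rw [r1, r2, r3, r4, div_div_div_cancel_right₀ hn, div_div_div_cancel_right₀ hD]

/-- The same over `ℤ[1/l]`. -/
theorem tVc (X : Sy l M F) (hh : ∀ y, AL l y → X.h y = 0) (a b z d : ℚ) (ha : AL l a)
    (hb : AL l b) (hz : AL l z) (hd : AL l d) (h : a * d - b * (M * z) = 1) (y : ℚ)
    (hy : AL l y) : X.h ((a * y + b) / (M * z * y + d)) = X.h (b / d) := by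
  obtain ⟨a0, b0, c0, d0, hdet, hM, H⟩ := tDec X.prime X.cop a b z d ha hb hz hd h
  obtain ⟨y', hy', e⟩ := H y hy
  obtain ⟨y0, hy0, e0⟩ := H 0 AL.zero
  have e1 : b / d = (a * 0 + b) / (M * z * 0 + d) := by simp
  rw [e1, e, e0, tVi X hh a0 b0 c0 d0 hdet hM y' hy', tVi X hh a0 b0 c0 d0 hdet hM y0 hy0]

private theorem Vd_key (X : Sy l M F) (hh : ∀ y, AL l y → X.h y = 0) (r : ℚ)
    (hr : E0 l M r) : ∀ a b z d : ℚ, AL l a → AL l b → AL l z → AL l d →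
    a * d - b * (M * z) = 1 → X.h ((a * r + b) / (M * z * r + d)) = X.h (b / d) := by
  have hne := X.prime.ne_zero
  induction hr with
  | zero =>
    intro a b z d _ _ _ _ _
    rw [mul_zero, mul_zero, zero_add, zero_add]
  | @up r y hy hr ih =>
    intro a b z d ha hb hz hd hdet
    have hMz : AL l (M * z) := (AL.nat M).mul hz
    have e1 : (a * (r + y) + b) / (M * z * (r + y) + d) =
        (a * r + (a * y + b)) / (M * z * r + (M * z * y + d)) := by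
      congr 1 <;> ring
    rw [e1, ih a (a * y + b) z (M * z * y + d) ha ((ha.mul hy).add hne hb) hz
      ((hMz.mul hy).add hne hd) (by linear_combination hdet)]
    exact tVc X hh a b z d ha hb hz hd hdet y hy
  | @lo r w hw hr ih =>
    intro a b z d ha hb hz hd hdet
    have hden : M * w * r + 1 ≠ 0 := hr.den X.two X.cop hw
    have e1 : (a * (r / (M * w * r + 1)) + b) / (M * z * (r / (M * w * r + 1)) + d) =
        ((a + b * (M * w)) * r + b) / (M * (z + d * w) * r + d) := by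
      have e2 : a * (r / (M * w * r + 1)) + b =
          ((a + b * (M * w)) * r + b) / (M * w * r + 1) := by
        rw [eq_div_iff hden, add_mul, mul_assoc a, div_mul_cancel₀ _ hden]
        ring
      have e3 : M * z * (r / (M * w * r + 1)) + d =
          (M * (z + d * w) * r + d) / (M * w * r + 1) := by
        rw [eq_div_iff hden, add_mul, mul_assoc (M * z), div_mul_cancel₀ _ hden]
        ring
      rw [e2, e3, div_div_div_cancel_right₀ hden]
    rw [e1]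
    exact ih (a + b * (M * w)) b (z + d * w) d
      (ha.add hne (hb.mul ((AL.nat M).mul hw))) hb (hz.add hne (hd.mul hw)) hd
      (by linear_combination hdet)

/-- `h` vanishes on the orbit of `0`. -/
theorem tVd (X : Sy l M F) (hh : ∀ y, AL l y → X.h y = 0) (r : ℚ) (hr : E0 l M r) :
    X.h r = 0 := by
  have h1 := Vd_key X hh r hr 1 0 0 1 AL.one AL.zero AL.zero AL.one (by ring)
  have e1 : ((1 : ℚ) * r + 0) / (M * 0 * r + 1) = r := by
    rw [mul_zero, zero_mul, zero_add, div_one, one_mul, add_zero]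
  rw [e1, zero_div] at h1
  rw [h1]
  exact hh 0 AL.zero

end DT.V
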